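import Pool.Agent.H914R3.CR.Gen

set_option autoImplicit false
open scoped ContDiff Topology
open Filter Set MeasureTheory

namespace Pool.Agent.H914R3.CR

variable {ι : Type} [Fintype ι] {d : ℕ}
variable {k : ℕ∞} {O : Set (ι → ℂ)} {ρ : (ι → ℂ) → (Fin d → ℝ)}

/-- Multiplication by `i` as a real linear map. -/
noncomputable def J (ι : Type) [Fintype ι] : (ι → ℂ) →L[ℝ] (ι → ℂ) :=
  (Complex.I • ContinuousLinearMap.id ℂ (ι → ℂ)).restrictScalars ℝ

theorem J_apply (v : ι → ℂ) : J ι v = Complex.I • v := rfl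

noncomputable def Bm (ρ : (ι → ℂ) → (Fin d → ℝ)) (x : ι → ℂ) :
    (ι → ℂ) →L[ℝ] ((Fin d → ℝ) × (Fin d → ℝ)) :=
  (ContinuousLinearMap.inl ℝ (Fin d → ℝ) (Fin d → ℝ)).comp (fderiv ℝ ρ x)
    + (ContinuousLinearMap.inr ℝ (Fin d → ℝ) (Fin d → ℝ)).comp ((fderiv ℝ ρ x).comp (J ι))

theorem Bm_apply (x v : ι → ℂ) :
    Bm ρ x v = (fderiv ℝ ρ x v, fderiv ℝ ρ x (Complex.I • v)) := by
  simp [Bm, J_apply]

namespace Gen

theorem exists_levi (h : Gen k O ρ) {z : ι → ℂ} (hz : z ∈ lvl O ρ) {v : ι → ℂ}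
    (hv : v ∈ ctangent (lvl O ρ) z) : ∃ ℓ, IsLeviValue (lvl O ρ) z v ℓ := by
  rw [h.mem_ctangent hz] at hv
  have hBs : Function.Surjective (Bm ρ z) := by
    rintro ⟨s, t⟩
    obtain ⟨w, h1, h2⟩ := h.surj z hz.1 s t
    exact ⟨w, by rw [Bm_apply, h1, h2]⟩
  obtain ⟨R0, hR0⟩ := LinearMap.exists_rightInverse_of_surjective
    (Bm ρ z : (ι → ℂ) →ₗ[ℝ] ((Fin d → ℝ) × (Fin d → ℝ))) (LinearMap.range_eq_top.2 hBs)
  set R : ((Fin d → ℝ) × (Fin d → ℝ)) →L[ℝ] (ι → ℂ) := LinearMap.toContinuousLinearMap R0 with hR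
  have hRz : (Bm ρ z).comp R = ContinuousLinearMap.id ℝ _ :=
    ContinuousLinearMap.ext fun s => LinearMap.congr_fun hR0 s
  have hBsm : ContDiffAt ℝ 1 (Bm ρ) z := by
    have h1 := h.contDiffAt_fderiv hz.1
    have h2 : ContDiffAt ℝ 1 (fun x => (fderiv ℝ ρ x).comp (J ι)) z := h1.clm_comp contDiffAt_const
    have h3 : ContDiffAt ℝ 1
        (fun x => (ContinuousLinearMap.inl ℝ (Fin d → ℝ) (Fin d → ℝ)).comp (fderiv ℝ ρ x)) z :=
      (contDiffAt_const (c := ContinuousLinearMap.inl ℝ (Fin d → ℝ) (Fin d → ℝ))).clm_comp h1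
    have h4 : ContDiffAt ℝ 1
        (fun x => (ContinuousLinearMap.inr ℝ (Fin d → ℝ) (Fin d → ℝ)).comp
          ((fderiv ℝ ρ x).comp (J ι))) z :=
      (contDiffAt_const (c := ContinuousLinearMap.inr ℝ (Fin d → ℝ) (Fin d → ℝ))).clm_comp h2
    exact h3.add h4
  set C : (ι → ℂ) → (((Fin d → ℝ) × (Fin d → ℝ)) →L[ℝ] ((Fin d → ℝ) × (Fin d → ℝ))) :=
    fun x => (Bm ρ x).comp R with hC
  have hCsm : ContDiffAt ℝ 1 C z := hBsm.clm_comp contDiffAt_const
  have hCz : C z = (ContinuousLinearEquiv.refl ℝ ((Fin d → ℝ) × (Fin d → ℝ)) :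
      ((Fin d → ℝ) × (Fin d → ℝ)) →L[ℝ] ((Fin d → ℝ) × (Fin d → ℝ))) := hRz
  have hinv : ContDiffAt ℝ 1 (fun x => ContinuousLinearMap.inverse (C x)) z := by
    have h1 : ContDiffAt ℝ 1 ContinuousLinearMap.inverse (C z) := by
      rw [hCz]
      exact contDiffAt_map_inverse _
    exact h1.comp z hCsm
  set X : (ι → ℂ) → (ι → ℂ) := fun x => v - R ((ContinuousLinearMap.inverse (C x)) (Bm ρ x v))
    with hX
  have hXsm : ContDiffAt ℝ 1 X z := by
    refine contDiffAt_const.sub ?_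
    refine R.contDiff.contDiffAt.comp z ?_
    exact hinv.clm_apply (hBsm.clm_apply contDiffAt_const)
  have hBzv : Bm ρ z v = 0 := by rw [Bm_apply, hv.1, hv.2]; rfl
  have hXz : X z = v := by
    simp only [hX, hBzv, map_zero, sub_zero]
  have hXB : ∀ᶠ x in 𝓝 z, Bm ρ x (X x) = 0 := by
    have h1 : ∀ᶠ x in 𝓝 z, C x ∈ range ((↑) : (((Fin d → ℝ) × (Fin d → ℝ)) ≃L[ℝ]
        ((Fin d → ℝ) × (Fin d → ℝ))) → (((Fin d → ℝ) × (Fin d → ℝ)) →L[ℝ]
        ((Fin d → ℝ) × (Fin d → ℝ)))) := by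
      have h2 := hCsm.continuousAt.tendsto
      rw [hCz] at h2
      exact h2 (ContinuousLinearEquiv.nhds _)
    filter_upwards [h1] with x hx
    obtain ⟨e, he⟩ := hx
    have h3 : ∀ y, C x ((ContinuousLinearMap.inverse (C x)) y) = y := by
      intro y
      rw [← he, ContinuousLinearMap.inverse_equiv]
      exact e.apply_symm_apply y
    have h4 : Bm ρ x (X x) = Bm ρ x v - C x ((ContinuousLinearMap.inverse (C x)) (Bm ρ x v)) := by
      simp only [hX, map_sub]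
      rfl
    rw [h4, h3, sub_self]
  have hXc : ∀ᶠ x in 𝓝[lvl O ρ] z, X x ∈ ctangent (lvl O ρ) x := by
    have h1 : ∀ᶠ x in 𝓝[lvl O ρ] z, Bm ρ x (X x) = 0 := hXB.filter_mono nhdsWithin_le_nhds
    filter_upwards [h1, self_mem_nhdsWithin] with x hx hx2
    rw [h.mem_ctangent hx2]
    rw [Bm_apply] at hx
    exact ⟨congrArg Prod.fst hx, congrArg Prod.snd hx⟩
  -- the bracket is tangent
  have hXd : HasFDerivAt X (fderiv ℝ X z) z := (hXsm.differentiableAt (by norm_num)).hasFDerivAt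
  have hρ2 : HasFDerivAt (fderiv ℝ ρ) (fderiv ℝ (fderiv ℝ ρ) z) z :=
    (h.diffAt_fderiv hz.1).hasFDerivAt
  have hd1 : ∀ w, fderiv ℝ (fderiv ℝ ρ) z w v + fderiv ℝ ρ z (fderiv ℝ X z w) = 0 := by
    intro w
    have h1 := hρ2.clm_apply hXd
    have h2 : HasFDerivAt (fun x => fderiv ℝ ρ x (X x)) (0 : (ι → ℂ) →L[ℝ] (Fin d → ℝ)) z := by
      refine (hasFDerivAt_const (0 : Fin d → ℝ) z).congr_of_eventuallyEq ?_
      filter_upwards [hXB] with x hx
      rw [Bm_apply] at hx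
      exact congrArg Prod.fst hx
    have h3 := congrArg (fun T => T w) (h1.unique h2)
    simp only [_root_.add_apply, ContinuousLinearMap.comp_apply, ContinuousLinearMap.flip_apply,
      _root_.zero_apply, hXz] at h3
    rw [add_comm] at h3
    exact h3
  have hd2 : ∀ w, fderiv ℝ (fderiv ℝ ρ) z w (Complex.I • v)
      + fderiv ℝ ρ z (Complex.I • fderiv ℝ X z w) = 0 := by
    intro w
    have hIX : HasFDerivAt (fun x => J ι (X x)) ((J ι).comp (fderiv ℝ X z)) z :=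
      (J ι).hasFDerivAt.comp z hXd
    have h1 := hρ2.clm_apply hIX
    have h2 : HasFDerivAt (fun x => fderiv ℝ ρ x (J ι (X x)))
        (0 : (ι → ℂ) →L[ℝ] (Fin d → ℝ)) z := by
      refine (hasFDerivAt_const (0 : Fin d → ℝ) z).congr_of_eventuallyEq ?_
      filter_upwards [hXB] with x hx
      rw [Bm_apply] at hx
      exact congrArg Prod.snd hx
    have h3 := congrArg (fun T => T w) (h1.unique h2)
    simp only [_root_.add_apply, ContinuousLinearMap.comp_apply, ContinuousLinearMap.flip_apply,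
      _root_.zero_apply, hXz, J_apply] at h3
    rw [add_comm] at h3
    exact h3
  have hsymm : fderiv ℝ (fderiv ℝ ρ) z v (Complex.I • v)
      = fderiv ℝ (fderiv ℝ ρ) z (Complex.I • v) v :=
    ((h.contDiffAt2 hz.1).isSymmSndFDerivAt (by simp)) v (Complex.I • v)
  have hmem : Complex.I • fderiv ℝ X z v - fderiv ℝ X z (Complex.I • v)
      ∈ tangent (lvl O ρ) z := by
    rw [h.mem_tangent hz, map_sub]
    have e1 := eq_neg_of_add_eq_zero_right (hd2 v)
    have e2 := eq_neg_of_add_eq_zero_right (hd1 (Complex.I • v))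
    rw [e1, e2, hsymm]
    abel
  exact ⟨_, X, hXsm, hXc, hXz, hmem, rfl⟩

end Gen

/-- The Levi form in the defining functions. -/
noncomputable def Lv (ρ : (ι → ℂ) → (Fin d → ℝ)) (z v : ι → ℂ) : Fin d → ℝ :=
  fderiv ℝ (fderiv ℝ ρ) z v v + fderiv ℝ (fderiv ℝ ρ) z (Complex.I • v) (Complex.I • v)

omit [Fintype ι] in
theorem Lv_smul (z v : ι → ℂ) (c : ℝ) : Lv ρ z (c • v) = (c ^ 2) • Lv ρ z v := by
  unfold Lv
  have : Complex.I • c • v = c • Complex.I • v := smul_comm _ _ _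
  rw [this]
  simp only [map_smul, _root_.smul_apply, smul_add, smul_smul]
  rw [sq]

/-- Sufficient condition for the Levi condition in codimension two. -/
theorem Gen.leviCondition {ρ : (ι → ℂ) → (Fin 2 → ℝ)} (h : Gen k O ρ)
    (hb : ∀ z ∈ lvl O ρ, ∀ v, v ≠ 0 → 0 ≤ Lv ρ z v 0 ∧ 0 ≤ Lv ρ z v 1 ∧
      0 < Lv ρ z v 0 + Lv ρ z v 1)
    (hc0 : ∀ z ∈ lvl O ρ, ∃ v, v ≠ 0 ∧ fderiv ℝ ρ z v = 0 ∧ fderiv ℝ ρ z (Complex.I • v) = 0 ∧
      0 < Lv ρ z v 0 ∧ Lv ρ z v 1 = 0)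
    (hc1 : ∀ z ∈ lvl O ρ, ∃ v, v ≠ 0 ∧ fderiv ℝ ρ z v = 0 ∧ fderiv ℝ ρ z (Complex.I • v) = 0 ∧
      Lv ρ z v 0 = 0 ∧ 0 < Lv ρ z v 1) : LeviCondition (lvl O ρ) := by
  intro z hz
  have hnuc := h.nu_continuous hz
  constructor
  · refine ⟨h.nu hz ⁻¹' {s | 0 ≤ 2 * s 0 + s 1 ∧ 0 ≤ s 0 + 2 * s 1}, ?_, ?_, ?_, ?_, ?_⟩
    · refine IsClosed.preimage hnuc ?_
      refine IsClosed.inter (s₁ := {s : Fin 2 → ℝ | 0 ≤ 2 * s 0 + s 1})
        (s₂ := {s : Fin 2 → ℝ | 0 ≤ s 0 + 2 * s 1}) ?_ ?_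
      · exact isClosed_le continuous_const (by fun_prop)
      · exact isClosed_le continuous_const (by fun_prop)
    · refine Convex.linear_preimage ?_ (h.nu hz)
      rintro x ⟨hx1, hx2⟩ y ⟨hy1, hy2⟩ a b ha hb' hab
      constructor
      · simp only [Pi.add_apply, Pi.smul_apply, smul_eq_mul]
        have := mul_nonneg ha hx1
        have := mul_nonneg hb' hy1
        linarith
      · simp only [Pi.add_apply, Pi.smul_apply, smul_eq_mul]
        have := mul_nonneg ha hx2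
        have := mul_nonneg hb' hy2
        linarith
    · rintro c hc x ⟨hx1, hx2⟩
      constructor
      · simp only [map_smul, Pi.smul_apply, smul_eq_mul]
        have := mul_nonneg hc hx1
        linarith
      · simp only [map_smul, Pi.smul_apply, smul_eq_mul]
        have := mul_nonneg hc hx2
        linarith
    · rintro x ⟨hx1, hx2⟩ ⟨hy1, hy2⟩
      simp only [map_neg, Pi.neg_apply] at hy1 hy2
      apply h.nu_injective hz
      rw [map_zero]
      have e0 : h.nu hz x 0 = 0 := by linarith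
      have e1 : h.nu hz x 1 = 0 := by linarith
      funext j
      fin_cases j
      · exact e0
      · exact e1
    · intro v hv hv0 ℓ hℓ
      have h1 := h.levi hz hv hℓ
      obtain ⟨b1, b2, b3⟩ := hb z hz v hv0
      have h2 : h.nu hz ℓ ∈ interior {s : Fin 2 → ℝ | 0 ≤ 2 * s 0 + s 1 ∧ 0 ≤ s 0 + 2 * s 1} := by
        rw [mem_interior]
        refine ⟨{s | 0 < 2 * s 0 + s 1} ∩ {s | 0 < s 0 + 2 * s 1}, ?_, ?_, ?_⟩
        · rintro s ⟨hs1, hs2⟩
          exact ⟨le_of_lt hs1, le_of_lt hs2⟩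
        · exact (isOpen_lt continuous_const (by fun_prop)).inter
            (isOpen_lt continuous_const (by fun_prop))
        · have h3 : h.nu hz ℓ = Lv ρ z v := h1
          rw [h3]
          constructor
          · show 0 < 2 * Lv ρ z v 0 + Lv ρ z v 1
            linarith
          · show 0 < Lv ρ z v 0 + 2 * Lv ρ z v 1
            linarith
      exact preimage_interior_subset_interior_preimage hnuc h2
  · set S : Set (Normal (lvl O ρ) z) :=
      {ℓ | ∃ v ∈ ctangent (lvl O ρ) z, v ≠ 0 ∧ IsLeviValue (lvl O ρ) z v ℓ} with hS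
    -- scaled values
    have hval : ∀ v, v ≠ 0 → fderiv ℝ ρ z v = 0 → fderiv ℝ ρ z (Complex.I • v) = 0 →
        ∀ c : ℝ, 0 < c → ∃ ℓ ∈ S, h.nu hz ℓ = c • Lv ρ z v := by
      intro v hv0 hv1 hv2 c hc
      have hmem : (√c) • v ∈ ctangent (lvl O ρ) z := by
        rw [h.mem_ctangent hz]
        have : Complex.I • (√c) • v = (√c) • Complex.I • v := smul_comm _ _ _
        rw [this, map_smul, map_smul, hv1, hv2, smul_zero]
        exact ⟨rfl, rfl⟩
      obtain ⟨ℓ, hℓ⟩ := h.exists_levi hz hmem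
      refine ⟨ℓ, ⟨_, hmem, smul_ne_zero (Real.sqrt_pos.2 hc).ne' hv0, hℓ⟩, ?_⟩
      have h1 := h.levi hz hmem hℓ
      have h2 : h.nu hz ℓ = Lv ρ z ((√c) • v) := h1
      rw [h2, Lv_smul, Real.sq_sqrt hc.le]
    obtain ⟨v0, a0, a1, a2, a3, a4⟩ := hc0 z hz
    obtain ⟨v1, b0, b1, b2, b3, b4⟩ := hc1 z hz
    have hsub : h.nu hz ⁻¹' {s | 0 < s 0 ∧ 0 < s 1} ⊆ convexHull ℝ S := by
      rintro x ⟨hx0, hx1⟩
      obtain ⟨ℓ0, hℓ0, e0⟩ := hval v0 a0 a1 a2 (2 * h.nu hz x 0 / Lv ρ z v0 0) (by positivity)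
      obtain ⟨ℓ1, hℓ1, e1⟩ := hval v1 b0 b1 b2 (2 * h.nu hz x 1 / Lv ρ z v1 1) (by positivity)
      have hx : x = (1/2 : ℝ) • ℓ0 + (1/2 : ℝ) • ℓ1 := by
        apply h.nu_injective hz
        rw [map_add, map_smul, map_smul, e0, e1]
        funext j
        fin_cases j
        · simp only [Fin.zero_eta, Pi.add_apply, Pi.smul_apply, smul_eq_mul, b3]
          field_simp
          ring
        · simp only [Fin.mk_one, Pi.add_apply, Pi.smul_apply, smul_eq_mul, a4]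
          field_simp
          ring
      rw [hx]
      exact (convex_convexHull ℝ S) (subset_convexHull ℝ S hℓ0) (subset_convexHull ℝ S hℓ1)
        (by norm_num) (by norm_num) (by norm_num)
    obtain ⟨x, hx⟩ := h.nu_surjective hz (fun _ => 1)
    refine ⟨x, ?_⟩
    rw [mem_interior]
    refine ⟨_, hsub, ?_, ?_⟩
    · refine IsOpen.preimage hnuc ?_
      exact (isOpen_lt continuous_const (continuous_apply 0)).inter
        (isOpen_lt continuous_const (continuous_apply 1))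
    · show 0 < h.nu hz x 0 ∧ 0 < h.nu hz x 1
      rw [hx]
      exact ⟨one_pos, one_pos⟩

end Pool.Agent.H914R3.CR
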