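import Pool.Agent.H914R3.CR.Defs

set_option autoImplicit false
open scoped ContDiff Topology
open Filter Set MeasureTheory

namespace Pool.Agent.H914R3.CR

variable {ι : Type} [Fintype ι]

theorem continuous_mul_of_tsupport {X : Type} [TopologicalSpace X] {V : Set X} (hV : IsOpen V)
    {φ g : X → ℂ} (hφ : Continuous φ) (hs : tsupport φ ⊆ V) (hg : ContinuousOn g V) :
    Continuous (fun x => φ x * g x) := by
  rw [continuous_iff_continuousAt]
  intro x
  by_cases hx : x ∈ V
  · exact hφ.continuousAt.mul (hg.continuousAt (hV.mem_nhds hx))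
  · have hx' : x ∉ tsupport φ := fun h => hx (hs h)
    have h0 : (fun x => φ x * g x) =ᶠ[𝓝 x] fun _ => 0 := by
      have : ∀ᶠ y in 𝓝 x, y ∉ tsupport φ := (isClosed_tsupport φ).isOpen_compl.mem_nhds hx'
      filter_upwards [this] with y hy
      rw [image_eq_zero_of_notMem_tsupport hy, zero_mul]
    exact continuousAt_const.congr h0.symm

/-- A function on `M` with a continuous field of complex linear derivatives is CR. -/
theorem isCRFunction_of_deriv {k : ℕ∞} (hk : 2 ≤ k) {M : Set (ι → ℂ)} {u : (ι → ℂ) → ℂ}
    (D : (ι → ℂ) → ((ι → ℂ) →L[ℂ] ℂ)) (hD : ContinuousOn D M)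
    (hu : ∀ q ∈ M, HasFDerivWithinAt u ((D q).restrictScalars ℝ) M q) : IsCRFunction k M u := by
  refine ⟨fun q hq => (hu q hq).continuousWithinAt, ?_⟩
  rintro m V γ c ⟨hV, hγk, -, -, O, -, hO⟩ hc hcs hcV h0
  have hγ : ContDiffOn ℝ 1 γ V := hγk.of_le
    (WithTop.coe_le_coe.2 (le_trans (by norm_num : (1 : ℕ∞) ≤ 2) hk))
  have hmaps : MapsTo γ V M := by
    intro x hx
    have : γ x ∈ γ '' V := ⟨x, hx, rfl⟩
    rw [hO] at this
    exact this.1
  have hγd : ∀ x ∈ V, HasFDerivAt γ (fderiv ℝ γ x) x := fun x hx =>
    ((hγ.contDiffAt (hV.mem_nhds hx)).differentiableAt (by norm_num)).hasFDerivAt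
  have hγc : ContinuousOn (fderiv ℝ γ) V := hγ.continuousOn_fderiv_of_isOpen hV (by norm_num)
  have hg : ∀ x ∈ V, HasFDerivAt (fun x => u (γ x))
      (((D (γ x)).restrictScalars ℝ).comp (fderiv ℝ γ x)) x := by
    intro x hx
    have h1 := (hu (γ x) (hmaps hx)).comp x ((hγd x hx).hasFDerivWithinAt (s := V)) hmaps
    exact h1.hasFDerivAt (hV.mem_nhds hx)
  have hgc : ContinuousOn (fun x => u (γ x)) V := fun x hx =>
    (hg x hx).continuousAt.continuousWithinAt
  have hfd : ∀ x ∈ V, ∀ j, pd j (fun x => u (γ x)) x = D (γ x) (pd j γ x) := by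
    intro x hx j
    rw [pd, (hg x hx).fderiv]
    rfl
  have hDc : ∀ j, ContinuousOn (fun x => pd j (fun x => u (γ x)) x) V := by
    intro j
    have h2 : ContinuousOn (fun x => D (γ x) (pd j γ x)) V := by
      refine ContinuousOn.clm_apply (hD.comp hγ.continuousOn hmaps) ?_
      exact hγc.clm_apply continuousOn_const
    exact h2.congr (fun x hx => hfd x hx j)
  have key : ∀ j, ∫ x, c j x * pd j (fun x => u (γ x)) x = - ∫ x, pd j (c j) x * u (γ x) := by
    intro j
    have hpd : Continuous (fun x => pd j (c j) x) :=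
      ((hc j).continuous_fderiv (by norm_num)).clm_apply continuous_const
    have hts : tsupport (fun x => pd j (c j) x) ⊆ tsupport (c j) :=
      tsupport_fderiv_apply_subset ℝ _
    refine integral_mul_fderiv_eq_neg_fderiv_mul_of_integrable ?_ ?_ ?_ ?_ ?_
    · refine (continuous_mul_of_tsupport hV hpd (hts.trans (hcV j)) hgc).integrable_of_hasCompactSupport ?_
      exact ((hcs j).fderiv_apply ℝ _).mul_right
    · refine (continuous_mul_of_tsupport hV (hc j).continuous (hcV j) (hDc j)).integrable_of_hasCompactSupport ?_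
      exact (hcs j).mul_right
    · refine (continuous_mul_of_tsupport hV (hc j).continuous (hcV j) hgc).integrable_of_hasCompactSupport ?_
      exact (hcs j).mul_right
    · intro x _
      exact (hc j).differentiable (by norm_num) x
    · intro x hx
      exact (hg x (hcV j hx)).differentiableAt
  have hint : ∀ j, Integrable (fun x => pd j (c j) x * u (γ x)) := by
    intro j
    have hpd : Continuous (fun x => pd j (c j) x) :=
      ((hc j).continuous_fderiv (by norm_num)).clm_apply continuous_const
    have hts : tsupport (fun x => pd j (c j) x) ⊆ tsupport (c j) :=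
      tsupport_fderiv_apply_subset ℝ _
    refine (continuous_mul_of_tsupport hV hpd (hts.trans (hcV j)) hgc).integrable_of_hasCompactSupport ?_
    exact ((hcs j).fderiv_apply ℝ _).mul_right
  have hint2 : ∀ j, Integrable (fun x => c j x * pd j (fun x => u (γ x)) x) := by
    intro j
    refine (continuous_mul_of_tsupport hV (hc j).continuous (hcV j) (hDc j)).integrable_of_hasCompactSupport ?_
    exact (hcs j).mul_right
  have h1 : ∫ x, (∑ j, pd j (c j) x) * u (γ x) = ∑ j, ∫ x, pd j (c j) x * u (γ x) := by
    rw [← integral_finsetSum _ (fun j _ => hint j)]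
    congr 1
    funext x
    rw [Finset.sum_mul]
  have h2 : ∑ j, ∫ x, c j x * pd j (fun x => u (γ x)) x = 0 := by
    rw [← integral_finsetSum _ (fun j _ => hint2 j)]
    have h3 : (fun x => ∑ j, c j x * pd j (fun x => u (γ x)) x) = fun _ => 0 := by
      funext x
      by_cases hx : x ∈ V
      · have h4 : ∑ j, c j x * pd j (fun x => u (γ x)) x = D (γ x) (∑ j, c j x • pd j γ x) := by
          rw [map_sum]
          refine Finset.sum_congr rfl fun j _ => ?_
          rw [map_smul, hfd x hx j, smul_eq_mul]
        have h5 : ∑ j, c j x • pd j γ x = 0 := by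
          ext i
          rw [Finset.sum_apply]
          simpa using h0 x hx i
        rw [h4, h5, map_zero]
      · refine Finset.sum_eq_zero fun j _ => ?_
        rw [image_eq_zero_of_notMem_tsupport (fun h => hx (hcV j h)), zero_mul]
    rw [h3, integral_zero]
  rw [h1, ← neg_eq_zero, ← Finset.sum_neg_distrib, ← h2]
  exact Finset.sum_congr rfl fun j _ => (key j).symm

end Pool.Agent.H914R3.CR
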