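import Mathlib

set_option autoImplicit false
open scoped ContDiff Topology
open Filter Set MeasureTheory

/-!
# CR submanifolds of `ℂⁿ`, Levi cone condition, continuous CR maps

`ℂⁿ` is written as `ι → ℂ` with a finite index set `ι`.
-/

namespace Pool.Agent.H914R3.CR

variable {ι : Type} [Fintype ι]

/-- `M ⊆ ℂⁿ` is an embedded real submanifold of class `C^k` and of real codimension `d`: near
each of its points it is the zero set of a `C^k` map into `ℝ^d` with surjective differential. -/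
def IsSubmanifold (k : ℕ∞) (d : ℕ) (M : Set (ι → ℂ)) : Prop :=
  ∀ z ∈ M, ∃ (U : Set (ι → ℂ)) (ρ : (ι → ℂ) → (Fin d → ℝ)), IsOpen U ∧ z ∈ U ∧
    ContDiffOn ℝ k ρ U ∧ (∀ x ∈ U, Function.Surjective (fderiv ℝ ρ x)) ∧
    M ∩ U = {x | x ∈ U ∧ ρ x = 0}

/-- The tangent space `T_z M`: the span of the velocity vectors at `z` of the curves in `M`. -/
noncomputable def tangent (M : Set (ι → ℂ)) (z : ι → ℂ) : Submodule ℝ (ι → ℂ) :=
  Submodule.span ℝ {v | ∃ γ : ℝ → (ι → ℂ), γ 0 = z ∧ (∀ᶠ s in 𝓝 0, γ s ∈ M) ∧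
    HasDerivAt γ v 0}

/-- The complex tangent space `T^c_z M = T_z M ∩ i T_z M`. -/
noncomputable def ctangent (M : Set (ι → ℂ)) (z : ι → ℂ) : Submodule ℂ (ι → ℂ) where
  carrier := {v | v ∈ tangent M z ∧ Complex.I • v ∈ tangent M z}
  add_mem' := by
    rintro a b ⟨ha, ha'⟩ ⟨hb, hb'⟩
    refine ⟨add_mem ha hb, ?_⟩
    rw [smul_add]
    exact add_mem ha' hb'
  zero_mem' := by simp
  smul_mem' := by
    rintro c v ⟨h1, h2⟩
    have hI : Complex.I • Complex.I • v = -v := by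
      rw [smul_smul, Complex.I_mul_I, neg_one_smul]
    have key : ∀ (c : ℂ) (w : ι → ℂ), c • w = c.re • w + c.im • (Complex.I • w) := by
      intro c w
      ext i
      simp only [Pi.smul_apply, Pi.add_apply, smul_eq_mul, Complex.real_smul]
      nth_rewrite 1 [← Complex.re_add_im c]
      ring
    constructor
    · rw [key]
      exact add_mem ((tangent M z).smul_mem _ h1) ((tangent M z).smul_mem _ h2)
    · rw [smul_comm, key, hI]
      exact add_mem ((tangent M z).smul_mem _ h2)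
        ((tangent M z).smul_mem _ ((tangent M z).neg_mem h1))

/-- The normal space `N_z M = T_z M / T^c_z M`. -/
abbrev Normal (M : Set (ι → ℂ)) (z : ι → ℂ) : Type :=
  tangent M z ⧸ ((ctangent M z).restrictScalars ℝ).submoduleOf (tangent M z)

/-- `ℓ ∈ N_z M` is the value at `v ∈ T^c_z M` of the Levi form of `M`: it is the class modulo
`T^c_z M` of the Lie bracket `[X, iX]_z` of a `C^1` vector field `X` which is a section of `T^c M`
along `M` with `X(z) = v`. -/
def IsLeviValue (M : Set (ι → ℂ)) (z v : ι → ℂ) (ℓ : Normal M z) : Prop :=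
  ∃ X : (ι → ℂ) → (ι → ℂ), ContDiffAt ℝ 1 X z ∧ (∀ᶠ x in 𝓝[M] z, X x ∈ ctangent M x) ∧
    X z = v ∧
    ∃ h : Complex.I • fderiv ℝ X z v - fderiv ℝ X z (Complex.I • v) ∈ tangent M z,
      ℓ = Submodule.Quotient.mk ⟨_, h⟩

/-- The standing Levi condition: at every `z ∈ M` there is a closed convex cone `Γ ⊆ N_z M`
containing no line whose interior contains the values of the Levi form at the nonzero vectors, and
the convex hull of these values has nonempty interior. -/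
def LeviCondition (M : Set (ι → ℂ)) : Prop :=
  ∀ z ∈ M,
    (∃ Γ : Set (Normal M z), IsClosed Γ ∧ Convex ℝ Γ ∧ (∀ c : ℝ, 0 ≤ c → ∀ x ∈ Γ, c • x ∈ Γ) ∧
      (∀ x ∈ Γ, -x ∈ Γ → x = 0) ∧
      ∀ v ∈ ctangent M z, v ≠ 0 → ∀ ℓ, IsLeviValue M z v ℓ → ℓ ∈ interior Γ) ∧
    (interior (convexHull ℝ
      {ℓ : Normal M z | ∃ v ∈ ctangent M z, v ≠ 0 ∧ IsLeviValue M z v ℓ})).Nonempty

/-- `M ⊆ ℂⁿ` is a CR submanifold of class `C^k`, of real codimension `d` and CR dimension `m`. -/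
def IsCRSubmanifold (k : ℕ∞) (d m : ℕ) (M : Set (ι → ℂ)) : Prop :=
  IsSubmanifold k d M ∧ ∀ z ∈ M, Module.finrank ℂ (ctangent M z) = m

/-- `γ` is a `C^k` parametrisation, on the open set `V ⊆ ℝᵐ`, of a relatively open subset of the
set `M ⊆ ℂⁿ`. -/
def IsLocalParam (k : ℕ∞) (M : Set (ι → ℂ)) {m : ℕ} (V : Set (EuclideanSpace ℝ (Fin m)))
    (γ : EuclideanSpace ℝ (Fin m) → (ι → ℂ)) : Prop :=
  IsOpen V ∧ ContDiffOn ℝ k γ V ∧ InjOn γ V ∧ (∀ x ∈ V, Function.Injective (fderiv ℝ γ x)) ∧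
    ∃ O : Set (ι → ℂ), IsOpen O ∧ γ '' V = M ∩ O

/-- The `j`-th partial derivative. -/
noncomputable def pd {m : ℕ} {E : Type} [NormedAddCommGroup E] [NormedSpace ℝ E] (j : Fin m)
    (u : EuclideanSpace ℝ (Fin m) → E) (x : EuclideanSpace ℝ (Fin m)) : E :=
  fderiv ℝ u x (EuclideanSpace.single j 1)

/-- `u : M → ℂ` is a continuous CR function on the submanifold `M ⊆ ℂⁿ` of class `C^k`, `k ≥ 2`:
it is continuous and satisfies the tangential Cauchy-Riemann equations in the sense of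
distributions. In local coordinates given by `γ`, a compactly supported `C^1` complex vector field
`∑ c_j ∂_j` on `V` is a `(0,1)` vector field of `M` if and only if it annihilates the components of
`γ` (the coordinate functions of `ℂⁿ` restricted to `M`), and the condition on `u` is that the
integral of `u` times the divergence of the vector field vanishes. -/
def IsCRFunction (k : ℕ∞) (M : Set (ι → ℂ)) (u : (ι → ℂ) → ℂ) : Prop :=
  ContinuousOn u M ∧
  ∀ (m : ℕ) (V : Set (EuclideanSpace ℝ (Fin m))) (γ : EuclideanSpace ℝ (Fin m) → (ι → ℂ))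
    (c : Fin m → EuclideanSpace ℝ (Fin m) → ℂ),
    IsLocalParam k M V γ →
    (∀ j, ContDiff ℝ 1 (c j)) → (∀ j, HasCompactSupport (c j)) → (∀ j, tsupport (c j) ⊆ V) →
    (∀ x ∈ V, ∀ i : ι, ∑ j, c j x * pd j γ x i = 0) →
    ∫ x, (∑ j, pd j (c j) x) * u (γ x) = 0

/-- A continuous CR mapping from `M₁` to `M₂` (both of class `C^k`). -/
def IsCRMap (k : ℕ∞) (M₁ M₂ : Set (ι → ℂ)) (f : (ι → ℂ) → (ι → ℂ)) : Prop :=
  MapsTo f M₁ M₂ ∧ ∀ i, IsCRFunction k M₁ (fun z => f z i)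

/-- The map `f` on the submanifold `M` of class `C^k`, `k > l`, is of Hölder class `C^{l+α}`,
`0 < α < 1`: near each point of `M` it is the restriction of a `C^l` map of an open subset of `ℂⁿ`
whose derivative of order `l` satisfies a Hölder condition of order `α`. -/
def IsHolderClass (l : ℕ) (α : ℝ) (M : Set (ι → ℂ)) (f : (ι → ℂ) → (ι → ℂ)) : Prop :=
  ∀ z ∈ M, ∃ (U : Set (ι → ℂ)) (g : (ι → ℂ) → (ι → ℂ)), IsOpen U ∧ z ∈ U ∧
    ContDiffOn ℝ l g U ∧ EqOn g f (M ∩ U) ∧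
    ∃ C : ℝ, ∀ x ∈ U, ∀ y ∈ U,
      ‖iteratedFDeriv ℝ l g x - iteratedFDeriv ℝ l g y‖ ≤ C * ‖x - y‖ ^ α

end Pool.Agent.H914R3.CR
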