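import Mathlib

set_option autoImplicit false
open scoped ContDiff Topology
open Filter Set MeasureTheory

namespace Pool.Agent.H914R3.CR

/-- `1 - e^{iθ}` -/
noncomputable def w (θ : ℝ) : ℂ := 1 - Complex.exp (Complex.I * θ)

theorem w_re (θ : ℝ) : (w θ).re = 1 - Real.cos θ := by
  unfold w
  rw [mul_comm, Complex.sub_re, Complex.one_re, Complex.exp_ofReal_mul_I_re]

theorem w_slit {θ : ℝ} (h0 : θ ≠ 0) (h1 : |θ| < 1) : w θ ∈ Complex.slitPlane := by
  left
  rw [w_re]
  have h2 := (abs_lt.1 h1).1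
  have h3 := (abs_lt.1 h1).2
  have : Real.cos θ < 1 := by
    refine lt_of_le_of_ne (Real.cos_le_one θ) fun h => h0 ?_
    have hpi := Real.pi_gt_three
    exact (Real.cos_eq_one_iff_of_lt_of_lt (by linarith) (by linarith)).1 h
  linarith

theorem w_ne {θ : ℝ} (h0 : θ ≠ 0) (h1 : |θ| < 1) : w θ ≠ 0 :=
  Complex.slitPlane_ne_zero (w_slit h0 h1)

theorem w_cont : Continuous w := by unfold w; fun_prop

theorem w_smooth : ContDiff ℝ ∞ w := by
  unfold w
  exact contDiff_const.sub (Complex.contDiff_exp.comp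
    (contDiff_const.mul Complex.ofRealCLM.contDiff))

theorem w_deriv (θ : ℝ) : HasDerivAt w (-(Complex.I * Complex.exp (Complex.I * θ))) θ := by
  have h1 : HasDerivAt (fun z : ℂ => 1 - Complex.exp (Complex.I * z))
      (-(Complex.I * Complex.exp (Complex.I * θ))) (θ : ℂ) := by
    have h2 : HasDerivAt (fun z : ℂ => Complex.I * z) Complex.I (θ : ℂ) := by
      simpa using (hasDerivAt_id (θ : ℂ)).const_mul Complex.I
    have h3 := (h2.cexp).const_sub 1
    rw [mul_comm (Complex.exp (Complex.I * (θ : ℂ))) Complex.I] at h3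
    exact h3
  exact h1.comp_ofReal

theorem w_norm_le (θ : ℝ) : ‖w θ‖ ≤ |θ| := by
  have h := (Convex.norm_image_sub_le_of_norm_hasDerivWithin_le (s := univ) (f := w)
    (f' := fun θ => -(Complex.I * Complex.exp (Complex.I * θ))) (C := 1) (x := 0) (y := θ)
    (fun x _ => (w_deriv x).hasDerivWithinAt) (fun x _ => by
      rw [norm_neg, norm_mul, Complex.norm_I, one_mul, mul_comm, Complex.norm_exp_ofReal_mul_I])
    convex_univ (mem_univ _) (mem_univ _))
  have h0 : w 0 = 0 := by simp [w]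
  rw [h0, sub_zero, sub_zero, one_mul, Real.norm_eq_abs] at h
  exact h

theorem w_pow_deriv (s : ℝ) {θ : ℝ} (h0 : θ ≠ 0) (h1 : |θ| < 1) :
    HasDerivAt (fun θ => w θ ^ (s : ℂ))
      ((s : ℂ) * w θ ^ ((s : ℂ) - 1) * (-(Complex.I * Complex.exp (Complex.I * θ)))) θ := by
  have h2 : HasDerivAt (fun z : ℂ => 1 - Complex.exp (Complex.I * z))
      (-(Complex.I * Complex.exp (Complex.I * θ))) (θ : ℂ) := by
    have h2 : HasDerivAt (fun z : ℂ => Complex.I * z) Complex.I (θ : ℂ) := by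
      simpa using (hasDerivAt_id (θ : ℂ)).const_mul Complex.I
    have h3 := (h2.cexp).const_sub 1
    rw [mul_comm (Complex.exp (Complex.I * (θ : ℂ))) Complex.I] at h3
    exact h3
  have h3 := (h2.cpow_const (c := (s : ℂ)) (w_slit h0 h1)).comp_ofReal
  exact h3

theorem not_smooth (j : ℕ) : ∀ (s : ℝ) (a F : ℝ → ℂ), s < j → (∀ n : ℕ, s ≠ n) →
    ContDiff ℝ ∞ a → a 0 ≠ 0 → ContDiffAt ℝ j F 0 →
    (∀ᶠ θ in 𝓝[≠] (0:ℝ), F θ = w θ ^ (s : ℂ) * a θ) → False := by
  induction j with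
  | zero =>
    intro s a F hs _ ha ha0 hF hev
    have hs : s < 0 := by simpa using hs
    have hFc : ContinuousAt F 0 := hF.continuousAt
    have h1 : ∀ᶠ θ in 𝓝[≠] (0:ℝ), ‖F θ‖ ≤ ‖F 0‖ + 1 := by
      have h2 := hFc.norm.tendsto.eventually (gt_mem_nhds (lt_add_one ‖F 0‖))
      filter_upwards [h2.filter_mono nhdsWithin_le_nhds] with θ hθ
      exact le_of_lt hθ
    have h2 : ∀ᶠ θ in 𝓝[≠] (0:ℝ), ‖a 0‖ / 2 ≤ ‖a θ‖ := by
      have h3 : ‖a 0‖ / 2 < ‖a 0‖ := by
        have := norm_pos_iff.2 ha0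
        linarith
      have h4 := ha.continuous.norm.continuousAt.tendsto.eventually (lt_mem_nhds h3)
      filter_upwards [h4.filter_mono nhdsWithin_le_nhds] with θ hθ
      exact le_of_lt hθ
    have h3 : Tendsto (fun θ : ℝ => ‖w θ‖ ^ s) (𝓝[≠] 0) atTop := by
      have h4 : Tendsto (fun θ : ℝ => ‖w θ‖) (𝓝[≠] 0) (𝓝[>] 0) := by
        refine tendsto_nhdsWithin_iff.2 ⟨?_, ?_⟩
        · have h5 := w_cont.norm.tendsto 0
          have h0 : w 0 = 0 := by simp [w]
          rw [h0, norm_zero] at h5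
          exact h5.mono_left nhdsWithin_le_nhds
        · have h5 : ∀ᶠ θ : ℝ in 𝓝[≠] 0, |θ| < 1 := by
            have : ∀ᶠ θ : ℝ in 𝓝 0, |θ| < 1 := by
              have h6 := (continuous_abs (G := ℝ)).tendsto 0
              rw [abs_zero] at h6
              exact h6.eventually (gt_mem_nhds one_pos)
            exact this.filter_mono nhdsWithin_le_nhds
          filter_upwards [h5, self_mem_nhdsWithin] with θ hθ hθ0
          exact norm_pos_iff.2 (w_ne hθ0 hθ)
      exact (tendsto_rpow_neg_nhdsGT_zero hs).comp h4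
    have h4 : ∀ᶠ θ in 𝓝[≠] (0:ℝ), (‖F 0‖ + 1) / (‖a 0‖ / 2) < ‖w θ‖ ^ s := h3.eventually_gt_atTop _
    have h5 : ∀ᶠ θ in 𝓝[≠] (0:ℝ), |θ| < 1 := by
      have : ∀ᶠ θ : ℝ in 𝓝 0, |θ| < 1 := by
        have h6 := (continuous_abs (G := ℝ)).tendsto 0
        rw [abs_zero] at h6
        exact h6.eventually (gt_mem_nhds one_pos)
      exact this.filter_mono nhdsWithin_le_nhds
    obtain ⟨θ, e1, e2, e4, e5, e6, e7⟩ := (h1.and (h2.and (h4.and (h5.and
      (hev.and self_mem_nhdsWithin))))).exists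
    have hpos := norm_pos_iff.2 ha0
    rw [e6, norm_mul, Complex.norm_cpow_real] at e1
    rw [div_lt_iff₀ (by positivity)] at e4
    have : ‖w θ‖ ^ s * (‖a 0‖ / 2) ≤ ‖w θ‖ ^ s * ‖a θ‖ := by gcongr
    linarith
  | succ j ih =>
    intro s a F hs hn ha ha0 hF hev
    have hev2 : ∀ᶠ θ in 𝓝[≠] (0:ℝ), ∀ᶠ η in 𝓝 θ, F η = w η ^ (s : ℂ) * a η := by
      have h1 : ∀ᶠ θ in 𝓝 (0:ℝ), θ ∈ ({0}ᶜ : Set ℝ) → F θ = w θ ^ (s : ℂ) * a θ :=
        eventually_nhdsWithin_iff.1 hev
      have h2 := h1.eventually_nhds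
      filter_upwards [h2.filter_mono nhdsWithin_le_nhds, self_mem_nhdsWithin] with θ hθ hθ0
      filter_upwards [hθ, isOpen_compl_singleton.mem_nhds hθ0] with η hη hη0
      exact hη hη0
    have h5 : ∀ᶠ θ in 𝓝[≠] (0:ℝ), |θ| < 1 := by
      have : ∀ᶠ θ : ℝ in 𝓝 0, |θ| < 1 := by
        have h6 := (continuous_abs (G := ℝ)).tendsto 0
        rw [abs_zero] at h6
        exact h6.eventually (gt_mem_nhds one_pos)
      exact this.filter_mono nhdsWithin_le_nhds
    refine ih (s - 1) (fun θ => (s : ℂ) * (-(Complex.I * Complex.exp (Complex.I * θ))) * a θ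
      + w θ * deriv a θ) (deriv F) ?_ ?_ ?_ ?_ ?_ ?_
    · push_cast at hs; linarith
    · intro n h
      apply hn (n + 1)
      push_cast
      linarith
    · have e1 : ContDiff ℝ ∞ (fun θ : ℝ => (s : ℂ) * (-(Complex.I * Complex.exp (Complex.I * θ)))) := by
        refine contDiff_const.mul (ContDiff.neg (contDiff_const.mul ?_))
        exact Complex.contDiff_exp.comp (contDiff_const.mul Complex.ofRealCLM.contDiff)
      have e2 : ContDiff ℝ ∞ (deriv a) := by
        have := (contDiff_infty_iff_deriv.1 ha).2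
        exact this
      exact (e1.mul ha).add (w_smooth.mul e2)
    · have h0 : w 0 = 0 := by simp [w]
      rw [h0, zero_mul, add_zero]
      simp only [Complex.ofReal_zero, mul_zero, Complex.exp_zero, mul_one]
      have hs0 : (s : ℂ) ≠ 0 := by
        have := hn 0
        simp only [Nat.cast_zero] at this
        exact_mod_cast this
      exact mul_ne_zero (mul_ne_zero hs0 (neg_ne_zero.2 Complex.I_ne_zero)) ha0
    · have h1 : ContDiffAt ℝ j (fun θ => fderiv ℝ F θ 1) 0 := by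
        refine ContDiffAt.clm_apply (hF.fderiv_right ?_) contDiffAt_const
        norm_cast
      exact h1
    · filter_upwards [hev2, h5, self_mem_nhdsWithin] with θ h1 h2 h3
      have h4 : F =ᶠ[𝓝 θ] fun η => w η ^ (s : ℂ) * a η := h1
      rw [h4.deriv_eq]
      have h6 := (w_pow_deriv s h3 h2).mul
        ((ha.differentiable (by simp)) θ).hasDerivAt
      have h7 : deriv (fun η => w η ^ (s : ℂ) * a η) θ = _ := h6.deriv
      rw [h7]
      have h8 : w θ ^ (s : ℂ) = w θ ^ ((s : ℂ) - 1) * w θ := by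
        rw [Complex.cpow_sub _ _ (w_ne h3 h2), Complex.cpow_one, div_mul_cancel₀ _ (w_ne h3 h2)]
      rw [h8]
      push_cast
      ring

end Pool.Agent.H914R3.CR
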