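import Pool.Agent.H914R3.CR.Homog
import Pool.Agent.H914R3.CR.CRFun
import Pool.Agent.H914R3.CR.NonSm

set_option autoImplicit false
open scoped ContDiff Topology
open Filter Set MeasureTheory

namespace Pool.Agent.H914R3.CR

/-- index set of `ℂ² × ℂ³` -/
abbrev JX : Type := Fin 2 ⊕ Fin 3

def b0 : JX → ℝ := Sum.elim (fun _ => 1) (fun _ => 0)
def b1 : JX → ℝ := Sum.elim (fun _ => 0) (fun _ => 1)

theorem blocks : Blocks b0 b1 (Sum.inl 0) (Sum.inl 1) (Sum.inr 0) (Sum.inr 1) := by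
  constructor
  · intro i
    rcases i with i | i
    · left; exact ⟨rfl, rfl⟩
    · right; exact ⟨rfl, rfl⟩
  · rfl
  · rfl
  · intro h
    exact absurd (Sum.inl.inj h) (by decide)
  · rfl
  · rfl
  · intro h
    exact absurd (Sum.inr.inj h) (by decide)

theorem Qb0 (x : JX → ℂ) : Q b0 x = ‖x (Sum.inl 0)‖ ^ 2 + ‖x (Sum.inl 1)‖ ^ 2 := by
  simp [Q, b0, Fintype.sum_sum_type, Fin.sum_univ_two]

theorem Qb1 (x : JX → ℂ) : Q b1 x = ‖x (Sum.inr 0)‖ ^ 2 + ‖x (Sum.inr 1)‖ ^ 2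
    + ‖x (Sum.inr 2)‖ ^ 2 := by
  simp [Q, b1, Fintype.sum_sum_type, Fin.sum_univ_three]

/-- The model manifold. -/
def MM (κ : ℂ → ℝ) : Set (JX → ℂ) :=
  lvl (OO b0 b1 (Sum.inr 0)) (rh b0 b1 (Sum.inr 0) κ)

/-- The map. -/
noncomputable def fm (s c : ℝ) (x : JX → ℂ) : JX → ℂ :=
  Sum.elim ![1, 0] ![x (Sum.inl 0), x (Sum.inl 1), (c : ℂ) * (1 - x (Sum.inl 0)) ^ (s : ℂ)]

theorem re_le {k : ℕ∞} {κ : ℂ → ℝ} (hK : KS k κ) {x : JX → ℂ} (hx : x ∈ MM κ) :
    ‖x (Sum.inl 0)‖ ≤ 1 := by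
  have h1 := ((mem_model hK).1 hx).1
  rw [Qb0] at h1
  have := sq_nonneg ‖x (Sum.inl 1)‖
  nlinarith [norm_nonneg (x (Sum.inl 0))]

/-- Differentiability of `(1-ζ)^s` up to the boundary of the disc. -/
theorem hasDerivAt_h (s : ℝ) (hs : 1 < s) {ζ : ℂ} (hζ : ‖ζ‖ ≤ 1) :
    HasDerivAt (fun ζ : ℂ => (1 - ζ) ^ (s : ℂ)) (-((s : ℂ) * (1 - ζ) ^ ((s : ℂ) - 1))) ζ := by
  by_cases h1 : ζ = 1
  · subst h1
    have e0 : ((s : ℂ) - 1) ≠ 0 := by
      intro h
      have := congrArg Complex.re h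
      simp at this
      linarith
    rw [sub_self, Complex.zero_cpow e0, mul_zero, neg_zero, hasDerivAt_iff_isLittleO]
    have e1 : (fun x' : ℂ => (1 - x') ^ (s : ℂ) - (1 - 1) ^ (s : ℂ) - (x' - 1) • (0:ℂ))
        = fun x' => (1 - x') ^ (s : ℂ) := by
      funext x'
      have : (s : ℂ) ≠ 0 := by
        intro h
        have := congrArg Complex.re h
        simp at this
        linarith
      rw [sub_self, Complex.zero_cpow this, smul_zero, sub_zero, sub_zero]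
    rw [e1, Asymptotics.isLittleO_iff]
    intro c hc
    have h3 : Continuous fun x : ℂ => ‖1 - x‖ ^ (s - 1) :=
      (continuous_const.sub continuous_id).norm.rpow_const fun _ => Or.inr (by linarith)
    have h4 := h3.tendsto 1
    rw [sub_self, norm_zero, Real.zero_rpow (by linarith)] at h4
    filter_upwards [h4.eventually (gt_mem_nhds hc)] with x hx
    rw [Complex.norm_cpow_real, norm_sub_rev x 1]
    rcases eq_or_ne (1 - x) 0 with h0 | h0
    · rw [h0, norm_zero, Real.zero_rpow (by linarith), mul_zero]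
    · have hn : 0 < ‖1 - x‖ := norm_pos_iff.2 h0
      have : ‖1 - x‖ ^ s = ‖1 - x‖ ^ (s - 1) * ‖1 - x‖ := by
        nth_rewrite 3 [← Real.rpow_one ‖1 - x‖]
        rw [← Real.rpow_add hn]; congr 1; ring
      rw [this]
      gcongr
  · have h2 : 1 - ζ ∈ Complex.slitPlane := by
      have h3 : ζ.re ≤ 1 := (Complex.re_le_norm ζ).trans hζ
      rcases h3.lt_or_eq with h4 | h4
      · left
        simp; linarith
      · right
        simp only [Complex.sub_im, Complex.one_im, zero_sub, ne_eq, neg_eq_zero]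
        intro h5
        exact h1 (Complex.ext (by simpa using h4) (by simpa using h5))
    have h4 : HasDerivAt (fun ζ : ℂ => 1 - ζ) (-1) ζ := by
      simpa using (hasDerivAt_id ζ).const_sub 1
    have h5 := h4.cpow_const (c := (s : ℂ)) h2
    convert h5 using 1
    ring

theorem cont_h (s : ℝ) (hs : 1 < s) :
    ContinuousOn (fun ζ : ℂ => -((s : ℂ) * (1 - ζ) ^ ((s : ℂ) - 1))) {ζ | ‖ζ‖ ≤ 1} := by
  intro ζ hζ
  have hζ : ‖ζ‖ ≤ 1 := hζ
  have h3 : ζ.re ≤ 1 := (Complex.re_le_norm ζ).trans hζ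
  have h1 : ContinuousAt (fun x : ℂ => x ^ ((s : ℂ) - 1)) (1 - ζ) := by
    apply Complex.continuousAt_cpow_const_of_re_pos
    · left; simp; linarith
    · simp; linarith
  have h2 : ContinuousAt (fun ζ : ℂ => (1 - ζ) ^ ((s : ℂ) - 1)) ζ :=
    ContinuousAt.comp (f := fun ζ : ℂ => 1 - ζ) (g := fun x : ℂ => x ^ ((s : ℂ) - 1)) h1
      (by fun_prop)
  exact ((continuousAt_const.mul h2).neg).continuousWithinAt

theorem cr_fm {k : ℕ∞} (hk : 2 ≤ k) {κ : ℂ → ℝ} (hK : KS k κ) (s c : ℝ) (hs : 1 < s) (i : JX) :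
    IsCRFunction k (MM κ) (fun z => fm s c z i) := by
  have hP : ∀ j : JX, ∀ q, HasFDerivWithinAt (fun z : JX → ℂ => z j)
      ((ContinuousLinearMap.proj (R := ℂ) (φ := fun _ : JX => ℂ) j).restrictScalars ℝ) (MM κ) q := by
    intro j q
    exact ((ContinuousLinearMap.proj (R := ℂ) (φ := fun _ : JX => ℂ) j).restrictScalars
      ℝ).hasFDerivAt.hasFDerivWithinAt
  have hlin : ∀ j : JX, IsCRFunction k (MM κ) (fun z => z j) := by
    intro j
    exact isCRFunction_of_deriv hk (fun _ => ContinuousLinearMap.proj (R := ℂ) j)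
      continuousOn_const (fun q _ => hP j q)
  have hconst : ∀ a : ℂ, IsCRFunction k (MM κ) (fun _ => a) := by
    intro a
    refine isCRFunction_of_deriv hk (fun _ => 0) continuousOn_const (fun q _ => ?_)
    exact (hasFDerivAt_const a q).hasFDerivWithinAt
  rcases i with i | i
  · fin_cases i
    · exact hconst 1
    · exact hconst 0
  · fin_cases i
    · exact hlin _
    · exact hlin _
    · show IsCRFunction k (MM κ) (fun z => (c : ℂ) * (1 - z (Sum.inl 0)) ^ (s : ℂ))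
      set P : (JX → ℂ) →L[ℂ] ℂ := ContinuousLinearMap.proj (R := ℂ) (φ := fun _ : JX => ℂ)
        (Sum.inl 0) with hPdef
      refine isCRFunction_of_deriv hk
        (fun q => ((c : ℂ) * (-((s : ℂ) * (1 - q (Sum.inl 0)) ^ ((s : ℂ) - 1)))) • P) ?_ ?_
      · have hcc : ContinuousOn (fun q : JX → ℂ =>
            (c : ℂ) * (-((s : ℂ) * (1 - q (Sum.inl 0)) ^ ((s : ℂ) - 1)))) (MM κ) := by
          refine ContinuousOn.mul continuousOn_const ?_
          exact (cont_h s hs).comp P.continuous.continuousOn (fun q hq => re_le hK hq)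
        exact hcc.smul continuousOn_const
      · intro q hq
        have h1 : HasDerivAt (fun ζ : ℂ => (c : ℂ) * (1 - ζ) ^ (s : ℂ))
            ((c : ℂ) * (-((s : ℂ) * (1 - (P q)) ^ ((s : ℂ) - 1)))) (P q) :=
          (hasDerivAt_h s hs (re_le hK hq)).const_mul (c : ℂ)
        have h2 : HasFDerivAt (fun z : JX → ℂ => (c : ℂ) * (1 - P z) ^ (s : ℂ))
            (((c : ℂ) * (-((s : ℂ) * (1 - (P q)) ^ ((s : ℂ) - 1)))) • P) q :=
          h1.comp_hasFDerivAt q P.hasFDerivAt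
        exact (h2.restrictScalars ℝ).hasFDerivWithinAt

theorem maps_fm {k : ℕ∞} {m δ : ℝ} (hδ : 0 < δ)
    (hK : KS k (fun ζ : ℂ => δ * ‖1 - ζ‖ ^ m)) :
    MapsTo (fm (m / 2) (Real.sqrt δ)) (MM fun _ => 0) (MM fun ζ : ℂ => δ * ‖1 - ζ‖ ^ m) := by
  intro x hx
  have h1 := ((mem_model (KS_zero k)).1 hx).1
  rw [Qb0] at h1
  refine (mem_model hK).2 ⟨?_, ?_, ?_⟩
  · rw [Qb0]
    simp [fm]
  · rw [Qb1]
    have e2 : fm (m / 2) (Real.sqrt δ) x (Sum.inr 2)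
      = (Real.sqrt δ : ℂ) * (1 - x (Sum.inl 0)) ^ ((m / 2 : ℝ) : ℂ) := rfl
    have e0 : fm (m / 2) (Real.sqrt δ) x (Sum.inr 0) = x (Sum.inl 0) := rfl
    have e1 : fm (m / 2) (Real.sqrt δ) x (Sum.inr 1) = x (Sum.inl 1) := rfl
    rw [e0, e1, e2, h1, norm_mul, Complex.norm_cpow_real, mul_pow, Complex.norm_real,
      Real.norm_of_nonneg (Real.sqrt_nonneg δ), Real.sq_sqrt hδ.le, ← Real.rpow_natCast
      (‖1 - x (Sum.inl 0)‖ ^ (m / 2)) 2, ← Real.rpow_mul (norm_nonneg _)]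
    congr 3
    push_cast
    ring
  · have e0 : fm (m / 2) (Real.sqrt δ) x (Sum.inr 0) = x (Sum.inl 0) := rfl
    rw [e0]
    exact (re_le (KS_zero k) hx).trans_lt (by norm_num)

/-- The test curve. -/
noncomputable def cv (θ : ℝ) : JX → ℂ :=
  Sum.elim ![Complex.exp (Complex.I * θ), 0] ![1, 0, 0]

theorem cv_mem (θ : ℝ) : cv θ ∈ MM fun _ => 0 := by
  refine (mem_model (KS_zero 2)).2 ⟨?_, ?_, ?_⟩
  · rw [Qb0]
    have e0 : cv θ (Sum.inl 0) = Complex.exp (Complex.I * θ) := rfl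
    have e1 : cv θ (Sum.inl 1) = 0 := rfl
    rw [e0, e1, mul_comm, Complex.norm_exp_ofReal_mul_I]
    simp
  · rw [Qb1]
    have e0 : cv θ (Sum.inr 0) = 1 := rfl
    have e1 : cv θ (Sum.inr 1) = 0 := rfl
    have e2 : cv θ (Sum.inr 2) = 0 := rfl
    rw [e0, e1, e2]
    simp
  · have e0 : cv θ (Sum.inr 0) = 1 := rfl
    rw [e0]
    simp

theorem cv_smooth : ContDiff ℝ ∞ cv := by
  have hE : ContDiff ℝ ∞ (fun θ : ℝ => Complex.exp (Complex.I * θ)) :=
    Complex.contDiff_exp.comp (contDiff_const.mul Complex.ofRealCLM.contDiff)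
  rw [contDiff_pi]
  intro i
  rcases i with i | i
  · fin_cases i
    · exact hE
    · exact contDiff_const
  · fin_cases i
    · exact contDiff_const
    · exact contDiff_const
    · exact contDiff_const

theorem fm_cv (s c : ℝ) (θ : ℝ) : fm s c (cv θ) (Sum.inr 2) = (c : ℂ) * w θ ^ (s : ℂ) := rfl

/-- velocity of the test curve -/
noncomputable def cv' (θ : ℝ) : JX → ℂ :=
  Sum.elim ![Complex.I * Complex.exp (Complex.I * θ), 0] ![0, 0, 0]

theorem cv_deriv (θ : ℝ) : HasDerivAt cv (cv' θ) θ := by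
  rw [hasDerivAt_pi]
  intro i
  rcases i with i | i
  · fin_cases i
    · show HasDerivAt (fun θ : ℝ => Complex.exp (Complex.I * θ))
        (Complex.I * Complex.exp (Complex.I * θ)) θ
      have h := (w_deriv θ).const_sub 1
      rw [neg_neg] at h
      have e : (fun θ => 1 - w θ) = fun θ : ℝ => Complex.exp (Complex.I * θ) := by
        funext θ
        simp [w]
      rwa [e] at h
    · exact hasDerivAt_const θ (0:ℂ)
  · fin_cases i
    · exact hasDerivAt_const θ (1:ℂ)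
    · exact hasDerivAt_const θ (0:ℂ)
    · exact hasDerivAt_const θ (0:ℂ)

theorem cv_sub (θ : ℝ) : ‖cv θ - cv 0‖ ≤ ‖w θ‖ := by
  rw [pi_norm_le_iff_of_nonneg (norm_nonneg _)]
  intro i
  rcases i with i | i
  · fin_cases i
    · simp [cv, w, norm_sub_rev]
    · simp [cv]
  · fin_cases i <;> simp [cv]

theorem cv'_sub (θ : ℝ) : ‖cv' θ - cv' 0‖ ≤ ‖w θ‖ := by
  rw [pi_norm_le_iff_of_nonneg (norm_nonneg _)]
  intro i
  rcases i with i | i
  · fin_cases i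
    · have : (cv' θ - cv' 0) (Sum.inl 0) = -(Complex.I * w θ) := by
        simp [cv', w]
        ring
      show ‖(cv' θ - cv' 0) (Sum.inl 0)‖ ≤ _
      rw [this, norm_neg, norm_mul, Complex.norm_I, one_mul]
    · simp [cv']
  · fin_cases i <;> simp [cv']

theorem cv'_norm (θ : ℝ) : ‖cv' θ‖ ≤ 1 := by
  rw [pi_norm_le_iff_of_nonneg zero_le_one]
  intro i
  rcases i with i | i
  · fin_cases i
    · show ‖Complex.I * Complex.exp (Complex.I * θ)‖ ≤ 1
      rw [norm_mul, Complex.norm_I, one_mul, mul_comm, Complex.norm_exp_ofReal_mul_I]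
    · simp [cv']
  · fin_cases i <;> simp [cv']

theorem ev_abs : ∀ᶠ θ in 𝓝[≠] (0:ℝ), |θ| < 1 := by
  have : ∀ᶠ θ : ℝ in 𝓝 0, |θ| < 1 := by
    have h6 := (continuous_abs (G := ℝ)).tendsto 0
    rw [abs_zero] at h6
    exact h6.eventually (gt_mem_nhds one_pos)
  exact this.filter_mono nhdsWithin_le_nhds

theorem w_tendsto : Tendsto (fun θ : ℝ => ‖w θ‖) (𝓝[≠] 0) (𝓝[>] 0) := by
  refine tendsto_nhdsWithin_iff.2 ⟨?_, ?_⟩
  · have h5 := w_cont.norm.tendsto 0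
    have h0 : w 0 = 0 := by simp [w]
    rw [h0, norm_zero] at h5
    exact h5.mono_left nhdsWithin_le_nhds
  · filter_upwards [ev_abs, self_mem_nhdsWithin] with θ hθ hθ0
    exact norm_pos_iff.2 (w_ne hθ0 hθ)

theorem rpow_tendsto (a : ℝ) (ha : 0 < a) :
    Tendsto (fun θ : ℝ => ‖w θ‖ ^ a) (𝓝[≠] 0) (𝓝 0) := by
  have h1 : Continuous fun x : ℝ => x ^ a := Real.continuous_rpow_const ha.le
  have h2 := h1.tendsto 0
  rw [Real.zero_rpow ha.ne'] at h2
  exact h2.comp (w_tendsto.mono_right nhdsWithin_le_nhds)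

theorem not_holder_two (c : ℝ) (hc : 0 < c) :
    ¬ IsHolderClass 1 (3 / 8) (MM fun _ => 0) (fm (5 / 4) c) := by
  intro h
  obtain ⟨U, g, hU, hz, hg, heq, C, hC⟩ := h (cv 0) (cv_mem 0)
  have hcvc : Continuous cv := cv_smooth.continuous
  have hcvU : ∀ᶠ θ in 𝓝 (0:ℝ), cv θ ∈ U := hcvc.continuousAt.eventually (hU.mem_nhds hz)
  have hgd : ∀ x ∈ U, HasFDerivAt g (fderiv ℝ g x) x := fun x hx =>
    ((hg.contDiffAt (hU.mem_nhds hx)).differentiableAt (by norm_num)).hasFDerivAt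
  set e : JX := Sum.inr 2 with he
  have hF : ∀ θ, cv θ ∈ U → HasDerivAt (fun θ => g (cv θ) e) (fderiv ℝ g (cv θ) (cv' θ) e) θ := by
    intro θ hθ
    have h1 := (hgd _ hθ).comp_hasDerivAt θ (cv_deriv θ)
    exact (hasDerivAt_pi.1 h1) e
  have hval : ∀ᶠ θ in 𝓝[≠] (0:ℝ), ‖fderiv ℝ g (cv θ) (cv' θ) e‖ = c * (5 / 4) * ‖w θ‖ ^ (1/4 : ℝ) := by
    filter_upwards [hcvU.eventually_nhds.filter_mono nhdsWithin_le_nhds, ev_abs,
      self_mem_nhdsWithin] with θ h1 h2 h3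
    have h4 : (fun θ => g (cv θ) e) =ᶠ[𝓝 θ] fun θ => (c : ℂ) * w θ ^ ((5 / 4 : ℝ) : ℂ) := by
      filter_upwards [h1] with η hη
      rw [heq ⟨cv_mem η, hη⟩]
      exact fm_cv _ _ _
    have h5 := (hF θ h1.self_of_nhds).congr_of_eventuallyEq h4.symm
    have h6 := (w_pow_deriv (5 / 4) h3 h2).const_mul (c : ℂ)
    rw [h5.unique h6]
    have e1 : (((5 / 4 : ℝ) : ℂ) - 1) = ((1 / 4 : ℝ) : ℂ) := by push_cast; norm_num
    rw [e1, norm_mul, norm_mul, norm_mul, Complex.norm_cpow_real, norm_neg, norm_mul,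
      Complex.norm_I, mul_comm Complex.I, Complex.norm_exp_ofReal_mul_I, Complex.norm_real,
      Complex.norm_real, Real.norm_of_nonneg hc.le, Real.norm_of_nonneg (by norm_num)]
    ring
  have hnear : ∀ᶠ θ in 𝓝[≠] (0:ℝ), ‖fderiv ℝ g (cv θ) (cv' θ) e - fderiv ℝ g (cv 0) (cv' 0) e‖
      ≤ |C| * ‖w θ‖ ^ (3 / 8 : ℝ) + ‖fderiv ℝ g (cv 0)‖ * ‖w θ‖ ^ (1 : ℝ) := by
    filter_upwards [hcvU.filter_mono nhdsWithin_le_nhds] with θ h1
    have e1 : fderiv ℝ g (cv θ) (cv' θ) - fderiv ℝ g (cv 0) (cv' 0)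
        = (iteratedFDeriv ℝ 1 g (cv θ) - iteratedFDeriv ℝ 1 g (cv 0)) (fun _ => cv' θ)
          + fderiv ℝ g (cv 0) (cv' θ - cv' 0) := by
      rw [_root_.sub_apply, iteratedFDeriv_one_apply, iteratedFDeriv_one_apply, map_sub]
      abel
    have e2 : ‖(iteratedFDeriv ℝ 1 g (cv θ) - iteratedFDeriv ℝ 1 g (cv 0)) (fun _ => cv' θ)‖
        ≤ |C| * ‖w θ‖ ^ (3 / 8 : ℝ) := by
      refine (ContinuousMultilinearMap.le_opNorm _ _).trans ?_
      rw [Finset.prod_const, Finset.card_univ, Fintype.card_fin, pow_one]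
      calc _ ≤ (|C| * ‖w θ‖ ^ (3 / 8 : ℝ)) * 1 := by
            refine mul_le_mul ?_ (cv'_norm θ) (norm_nonneg _) (by positivity)
            refine (hC _ h1 _ hz).trans ?_
            calc C * ‖cv θ - cv 0‖ ^ (3 / 8 : ℝ) ≤ |C| * ‖cv θ - cv 0‖ ^ (3 / 8 : ℝ) := by
                  gcongr; exact le_abs_self C
              _ ≤ |C| * ‖w θ‖ ^ (3 / 8 : ℝ) := by
                  gcongr; exact cv_sub θ
        _ = _ := mul_one _
    have e3 : ‖fderiv ℝ g (cv 0) (cv' θ - cv' 0)‖ ≤ ‖fderiv ℝ g (cv 0)‖ * ‖w θ‖ ^ (1 : ℝ) := by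
      rw [Real.rpow_one]
      refine (ContinuousLinearMap.le_opNorm _ _).trans ?_
      gcongr
      exact cv'_sub θ
    have e4 : fderiv ℝ g (cv θ) (cv' θ) e - fderiv ℝ g (cv 0) (cv' 0) e
        = (fderiv ℝ g (cv θ) (cv' θ) - fderiv ℝ g (cv 0) (cv' 0)) e := rfl
    rw [e4]
    refine (norm_le_pi_norm _ e).trans ?_
    rw [e1]
    exact (norm_add_le _ _).trans (add_le_add e2 e3)
  set K := ‖fderiv ℝ g (cv 0)‖ with hK
  have h0 : fderiv ℝ g (cv 0) (cv' 0) e = 0 := by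
    have t1 : Tendsto (fun θ => fderiv ℝ g (cv θ) (cv' θ) e - fderiv ℝ g (cv 0) (cv' 0) e)
        (𝓝[≠] 0) (𝓝 0) := by
      have t3 := ((rpow_tendsto (3 / 8) (by norm_num)).const_mul |C|).add
        ((rpow_tendsto 1 one_pos).const_mul K)
      rw [mul_zero, mul_zero, add_zero] at t3
      exact squeeze_zero_norm' hnear t3
    have t2 : Tendsto (fun θ => fderiv ℝ g (cv θ) (cv' θ) e) (𝓝[≠] 0) (𝓝 0) := by
      have t3 := (rpow_tendsto (1 / 4) (by norm_num)).const_mul (c * (5 / 4))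
      rw [mul_zero] at t3
      exact squeeze_zero_norm' (hval.mono fun θ h => h.le) t3
    have t3 := t2.sub t1
    simp only [sub_sub_cancel, sub_zero] at t3
    exact tendsto_nhds_unique tendsto_const_nhds t3
  have hfin : ∀ᶠ θ in 𝓝[≠] (0:ℝ), c * (5 / 4) ≤ |C| * ‖w θ‖ ^ (1 / 8 : ℝ) + K * ‖w θ‖ ^ (3 / 4 : ℝ) := by
    filter_upwards [hval, hnear, ev_abs, self_mem_nhdsWithin] with θ h1 h2 h3 h4
    rw [h0, sub_zero, h1] at h2
    have hp : 0 < ‖w θ‖ := norm_pos_iff.2 (w_ne h4 h3)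
    have hp4 : 0 < ‖w θ‖ ^ (1 / 4 : ℝ) := Real.rpow_pos_of_pos hp _
    have a1 : ‖w θ‖ ^ (3 / 8 : ℝ) = ‖w θ‖ ^ (1 / 8 : ℝ) * ‖w θ‖ ^ (1 / 4 : ℝ) := by
      rw [← Real.rpow_add hp]; norm_num
    have a2 : ‖w θ‖ ^ (1 : ℝ) = ‖w θ‖ ^ (3 / 4 : ℝ) * ‖w θ‖ ^ (1 / 4 : ℝ) := by
      rw [← Real.rpow_add hp]; norm_num
    rw [a1, a2, ← mul_assoc, ← mul_assoc, ← add_mul] at h2
    exact le_of_mul_le_mul_right h2 hp4
  have hlim := ((rpow_tendsto (1 / 8) (by norm_num)).const_mul |C|).add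
    ((rpow_tendsto (3 / 4) (by norm_num)).const_mul K)
  rw [mul_zero, mul_zero, add_zero] at hlim
  have : c * (5 / 4) ≤ 0 := ge_of_tendsto hlim hfin
  linarith

theorem not_holder_three (k : ℕ) (hk : 3 ≤ k) (c : ℝ) (hc : 0 < c) (α : ℝ) :
    ¬ IsHolderClass (k - 1) α (MM fun _ => 0) (fm (((k : ℝ) + 1 / 2) / 2) c) := by
  intro h
  obtain ⟨U, g, hU, hz, hg, heq, -⟩ := h (cv 0) (cv_mem 0)
  have hcvc : Continuous cv := cv_smooth.continuous
  have hcvU : ∀ᶠ θ in 𝓝 (0:ℝ), cv θ ∈ U := hcvc.continuousAt.eventually (hU.mem_nhds hz)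
  have hk3 : (3:ℝ) ≤ k := by exact_mod_cast hk
  refine not_smooth (k - 1) (((k : ℝ) + 1 / 2) / 2) (fun _ => (c : ℂ))
    (fun θ => g (cv θ) (Sum.inr 2)) ?_ ?_ contDiff_const ?_ ?_ ?_
  · rw [Nat.cast_sub (by omega)]
    push_cast
    linarith
  · intro n hn
    have h1 : (2 * (k : ℝ) + 1) = 4 * n := by linarith
    have h2 : 2 * k + 1 = 4 * n := by exact_mod_cast h1
    omega
  · exact_mod_cast hc.ne'
  · have h1 : ContDiffAt ℝ ((k - 1 : ℕ) : ℕ∞ω) g (cv 0) := hg.contDiffAt (hU.mem_nhds hz)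
    have h2 : ContDiffAt ℝ ((k - 1 : ℕ) : ℕ∞ω) (fun θ => g (cv θ)) 0 :=
      h1.comp 0 ((cv_smooth.of_le (WithTop.coe_le_coe.2 le_top)).contDiffAt)
    exact (contDiffAt_pi.1 h2) (Sum.inr 2)
  · filter_upwards [hcvU.filter_mono nhdsWithin_le_nhds] with θ h1
    rw [heq ⟨cv_mem θ, h1⟩, fm_cv, mul_comm]

end Pool.Agent.H914R3.CR
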