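import Pool.Agent.H914R3.CR.Defs

set_option autoImplicit false
open scoped ContDiff Topology
open Filter Set MeasureTheory

namespace Pool.Agent.H914R3.CR

variable {ι : Type} [Fintype ι] {d : ℕ}

/-- Generic defining function on an open set. -/
structure Gen (k : ℕ∞) (O : Set (ι → ℂ)) (ρ : (ι → ℂ) → (Fin d → ℝ)) : Prop where
  isOpen : IsOpen O
  two_le : 2 ≤ k
  smooth : ContDiffOn ℝ k ρ O
  surj : ∀ x ∈ O, ∀ s t : Fin d → ℝ, ∃ v : ι → ℂ,
    fderiv ℝ ρ x v = s ∧ fderiv ℝ ρ x (Complex.I • v) = t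

/-- The submanifold. -/
def lvl (O : Set (ι → ℂ)) (ρ : (ι → ℂ) → (Fin d → ℝ)) : Set (ι → ℂ) := {x | x ∈ O ∧ ρ x = 0}

variable {k : ℕ∞} {O : Set (ι → ℂ)} {ρ : (ι → ℂ) → (Fin d → ℝ)}

namespace Gen

theorem contDiffAt (h : Gen k O ρ) {x : ι → ℂ} (hx : x ∈ O) : ContDiffAt ℝ k ρ x :=
  h.smooth.contDiffAt (h.isOpen.mem_nhds hx)

theorem contDiffAt2 (h : Gen k O ρ) {x : ι → ℂ} (hx : x ∈ O) : ContDiffAt ℝ 2 ρ x := by
  exact (h.contDiffAt hx).of_le (WithTop.coe_le_coe.2 h.two_le)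

theorem diffAt (h : Gen k O ρ) {x : ι → ℂ} (hx : x ∈ O) : DifferentiableAt ℝ ρ x :=
  (h.contDiffAt2 hx).differentiableAt (by norm_num)

theorem contDiffAt_fderiv (h : Gen k O ρ) {x : ι → ℂ} (hx : x ∈ O) :
    ContDiffAt ℝ 1 (fderiv ℝ ρ) x :=
  (h.contDiffAt2 hx).fderiv_right (by norm_num)

theorem diffAt_fderiv (h : Gen k O ρ) {x : ι → ℂ} (hx : x ∈ O) :
    DifferentiableAt ℝ (fderiv ℝ ρ) x :=
  (h.contDiffAt_fderiv hx).differentiableAt (by norm_num)

theorem strict (h : Gen k O ρ) {x : ι → ℂ} (hx : x ∈ O) :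
    HasStrictFDerivAt ρ (fderiv ℝ ρ x) x :=
  (h.contDiffAt2 hx).hasStrictFDerivAt (by norm_num)

theorem surjective (h : Gen k O ρ) {x : ι → ℂ} (hx : x ∈ O) :
    Function.Surjective (fderiv ℝ ρ x) := fun s => by
  obtain ⟨v, hv, _⟩ := h.surj x hx s 0
  exact ⟨v, hv⟩

/-- Curves with a prescribed velocity. -/
theorem curve (h : Gen k O ρ) {z : ι → ℂ} (hz : z ∈ lvl O ρ) {v : ι → ℂ}
    (hv : fderiv ℝ ρ z v = 0) : ∃ γ : ℝ → (ι → ℂ), γ 0 = z ∧ (∀ᶠ s in 𝓝 0, γ s ∈ lvl O ρ) ∧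
    HasDerivAt γ v 0 := by
  have hs := h.strict hz.1
  have hr : (fderiv ℝ ρ z).range = ⊤ := LinearMap.range_eq_top.2 (h.surjective hz.1)
  set g := hs.implicitFunction ρ (fderiv ℝ ρ z) hr with hg
  set w : (fderiv ℝ ρ z).ker := ⟨v, hv⟩ with hw
  have hl : Tendsto (fun s : ℝ => s • w) (𝓝 0) (𝓝 0) := by
    have : Continuous fun s : ℝ => s • w := by fun_prop
    simpa using this.tendsto 0
  have hder : HasDerivAt (fun s : ℝ => g (ρ z) (s • w)) v 0 := by
    have h1 : HasFDerivAt (g (ρ z)) ((fderiv ℝ ρ z).ker.subtypeL) 0 :=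
      (hs.to_implicitFunction hr).hasFDerivAt
    have h2 : HasDerivAt (fun s : ℝ => s • w) w 0 := by
      have := (hasDerivAt_id (0:ℝ)).smul_const w
      simpa using this
    have h3 : HasFDerivAt (g (ρ z)) ((fderiv ℝ ρ z).ker.subtypeL) ((0:ℝ) • w) := by
      rw [zero_smul]; exact h1
    have h4 := h3.comp_hasDerivAt (0:ℝ) h2
    exact h4
  have h0 : g (ρ z) ((0:ℝ) • w) = z := by
    rw [zero_smul]
    exact hs.implicitFunction_apply_image hr
  refine ⟨fun s => g (ρ z) (s • w), h0, ?_, hder⟩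
  have h1 : ∀ᶠ s : ℝ in 𝓝 0, ρ (g (ρ z) (s • w)) = ρ z := by
    have h2 := hs.map_implicitFunction_eq hr
    have h3 : Tendsto (fun s : ℝ => (ρ z, s • w)) (𝓝 0) (𝓝 (ρ z, 0)) :=
      tendsto_const_nhds.prodMk_nhds hl
    exact h3.eventually h2
  have h2 : ∀ᶠ s : ℝ in 𝓝 0, g (ρ z) (s • w) ∈ O := by
    have : Tendsto (fun s : ℝ => g (ρ z) (s • w)) (𝓝 0) (𝓝 z) := by
      have := hder.continuousAt.tendsto
      rwa [h0] at this
    exact this (h.isOpen.mem_nhds hz.1)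
  filter_upwards [h1, h2] with s hs1 hs2
  exact ⟨hs2, hs1.trans hz.2⟩

theorem mem_tangent (h : Gen k O ρ) {z : ι → ℂ} (hz : z ∈ lvl O ρ) {v : ι → ℂ} :
    v ∈ tangent (lvl O ρ) z ↔ fderiv ℝ ρ z v = 0 := by
  constructor
  · intro hv
    have hle : tangent (lvl O ρ) z ≤ (fderiv ℝ ρ z).ker := by
      refine Submodule.span_le.2 ?_
      rintro w ⟨γ, hγ0, hγM, hγ⟩
      have h1 : HasFDerivAt ρ (fderiv ℝ ρ z) (γ 0) := by
        rw [hγ0]; exact (h.diffAt hz.1).hasFDerivAt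
      have h2 := h1.comp_hasDerivAt (0:ℝ) hγ
      have h3 : HasDerivAt (ρ ∘ γ) 0 0 := by
        refine (hasDerivAt_const (0:ℝ) (0 : Fin d → ℝ)).congr_of_eventuallyEq ?_
        filter_upwards [hγM] with s hs
        exact hs.2
      exact h2.unique h3
    exact hle hv
  · intro hv
    exact Submodule.subset_span (h.curve hz hv)

theorem mem_ctangent (h : Gen k O ρ) {z : ι → ℂ} (hz : z ∈ lvl O ρ) {v : ι → ℂ} :
    v ∈ ctangent (lvl O ρ) z ↔ fderiv ℝ ρ z v = 0 ∧ fderiv ℝ ρ z (Complex.I • v) = 0 := by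
  have : v ∈ ctangent (lvl O ρ) z ↔ v ∈ tangent (lvl O ρ) z ∧ Complex.I • v ∈ tangent (lvl O ρ) z :=
    Iff.rfl
  rw [this, h.mem_tangent hz, h.mem_tangent hz]

theorem isSubmanifold (h : Gen k O ρ) : IsSubmanifold k d (lvl O ρ) := by
  intro z hz
  refine ⟨O, ρ, h.isOpen, hz.1, h.smooth, fun x hx => h.surjective hx, ?_⟩
  ext x
  simp only [lvl, mem_inter_iff, mem_ofPred_eq]
  tauto

/-- The complexified differential. -/
noncomputable def cx (ρ : (ι → ℂ) → (Fin d → ℝ)) (z : ι → ℂ) : (ι → ℂ) →ₗ[ℂ] (Fin d → ℂ) where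
  toFun v j := (fderiv ℝ ρ z v j : ℂ) - Complex.I * (fderiv ℝ ρ z (Complex.I • v) j : ℂ)
  map_add' v w := by
    ext j
    simp only [smul_add, map_add, Pi.add_apply, Complex.ofReal_add]
    ring
  map_smul' c v := by
    have key : ∀ (c : ℂ) (w : ι → ℂ), c • w = c.re • w + c.im • (Complex.I • w) := by
      intro c w
      ext i
      simp only [Pi.smul_apply, Pi.add_apply, smul_eq_mul, Complex.real_smul]
      nth_rewrite 1 [← Complex.re_add_im c]
      ring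
    have hI : Complex.I • Complex.I • v = -v := by
      rw [smul_smul, Complex.I_mul_I, neg_one_smul]
    have h1 : Complex.I • (c • v) = (-c.im) • v + c.re • (Complex.I • v) := by
      rw [smul_comm, key c (Complex.I • v), hI]
      module
    ext j
    rw [h1, key c v]
    simp only [map_add, map_smul, Pi.add_apply, Pi.smul_apply, smul_eq_mul, Complex.ofReal_add,
      Complex.ofReal_mul, Complex.ofReal_neg, RingHom.id_apply]
    nth_rewrite 5 [← Complex.re_add_im c]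
    linear_combination ((c.im : ℂ) * (fderiv ℝ ρ z (Complex.I • v) j : ℂ)) * Complex.I_sq

theorem finrank_ctangent (h : Gen k O ρ) {z : ι → ℂ} (hz : z ∈ lvl O ρ) :
    Module.finrank ℂ (ctangent (lvl O ρ) z) + d = Fintype.card ι := by
  have hker : ctangent (lvl O ρ) z = LinearMap.ker (cx ρ z) := by
    ext v
    rw [h.mem_ctangent hz, LinearMap.mem_ker]
    constructor
    · rintro ⟨h1, h2⟩
      ext j
      simp [cx, h1, h2]
    · intro hv
      have : ∀ j, fderiv ℝ ρ z v j = 0 ∧ fderiv ℝ ρ z (Complex.I • v) j = 0 := by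
        intro j
        have h1 := congrFun hv j
        simp only [cx, LinearMap.coe_mk, AddHom.coe_mk, Pi.zero_apply] at h1
        have h2 := congrArg Complex.re h1
        have h3 := congrArg Complex.im h1
        simp at h2 h3
        exact ⟨h2, h3⟩
      exact ⟨funext fun j => (this j).1, funext fun j => (this j).2⟩
  have hsurj : Function.Surjective (cx ρ z) := by
    intro s
    obtain ⟨v, h1, h2⟩ := h.surj z hz.1 (fun j => (s j).re) (fun j => -(s j).im)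
    refine ⟨v, ?_⟩
    ext j
    simp only [cx, LinearMap.coe_mk, AddHom.coe_mk, h1, h2]
    apply Complex.ext <;> simp
  have h1 := LinearMap.finrank_range_add_finrank_ker (cx ρ z)
  rw [LinearMap.range_eq_top.2 hsurj, finrank_top, Module.finrank_fin_fun,
    Module.finrank_fintype_fun_eq_card] at h1
  rw [hker]
  omega

/-- The map `T_z M → ℝ^d`, `w ↦ dρ(i w)`. -/
noncomputable def gmap (ρ : (ι → ℂ) → (Fin d → ℝ)) (M : Set (ι → ℂ)) (z : ι → ℂ) :
    tangent M z →ₗ[ℝ] (Fin d → ℝ) :=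
  ((fderiv ℝ ρ z : (ι → ℂ) →ₗ[ℝ] (Fin d → ℝ)) ∘ₗ
    ((Complex.I • LinearMap.id : (ι → ℂ) →ₗ[ℂ] (ι → ℂ)).restrictScalars ℝ)) ∘ₗ (tangent M z).subtype

omit [Fintype ι] in
theorem gmap_apply (z : ι → ℂ) (M : Set (ι → ℂ)) (w : tangent M z) :
    gmap ρ M z w = fderiv ℝ ρ z (Complex.I • (w : ι → ℂ)) := rfl

theorem gmap_ker (h : Gen k O ρ) {z : ι → ℂ} (hz : z ∈ lvl O ρ) :
    ((ctangent (lvl O ρ) z).restrictScalars ℝ).submoduleOf (tangent (lvl O ρ) z)
      = LinearMap.ker (gmap ρ (lvl O ρ) z) := by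
  ext w
  rw [LinearMap.mem_ker, gmap_apply]
  have : w ∈ ((ctangent (lvl O ρ) z).restrictScalars ℝ).submoduleOf (tangent (lvl O ρ) z) ↔
    (w : ι → ℂ) ∈ ctangent (lvl O ρ) z := Iff.rfl
  rw [this, h.mem_ctangent hz]
  have hw := (h.mem_tangent hz).1 w.2
  tauto

/-- The isomorphism `N_z M → ℝ^d`. -/
noncomputable def nu (h : Gen k O ρ) {z : ι → ℂ} (hz : z ∈ lvl O ρ) :
    Normal (lvl O ρ) z →ₗ[ℝ] (Fin d → ℝ) :=
  Submodule.liftQ _ (gmap ρ (lvl O ρ) z) (h.gmap_ker hz).le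

theorem nu_mk (h : Gen k O ρ) {z : ι → ℂ} (hz : z ∈ lvl O ρ) (w : tangent (lvl O ρ) z) :
    h.nu hz (Submodule.Quotient.mk w) = fderiv ℝ ρ z (Complex.I • (w : ι → ℂ)) := rfl

theorem nu_injective (h : Gen k O ρ) {z : ι → ℂ} (hz : z ∈ lvl O ρ) :
    Function.Injective (h.nu hz) := by
  rw [injective_iff_map_eq_zero]
  intro x hx
  obtain ⟨w, rfl⟩ := Submodule.Quotient.mk_surjective _ x
  rw [Submodule.Quotient.mk_eq_zero, h.gmap_ker hz]
  exact hx

theorem nu_surjective (h : Gen k O ρ) {z : ι → ℂ} (hz : z ∈ lvl O ρ) :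
    Function.Surjective (h.nu hz) := by
  intro s
  obtain ⟨v, h1, h2⟩ := h.surj z hz.1 0 s
  exact ⟨Submodule.Quotient.mk ⟨v, (h.mem_tangent hz).2 h1⟩, by rw [nu_mk]; exact h2⟩

theorem nu_continuous (h : Gen k O ρ) {z : ι → ℂ} (hz : z ∈ lvl O ρ) :
    Continuous (h.nu hz) := by
  have hc : Continuous (gmap ρ (lvl O ρ) z) := by
    have : Continuous fun w : tangent (lvl O ρ) z => fderiv ℝ ρ z (Complex.I • (w : ι → ℂ)) := by
      fun_prop
    exact this
  exact Continuous.quotient_lift hc _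

/-- The value of the Levi form in the coordinates `nu`. -/
theorem levi (h : Gen k O ρ) {z : ι → ℂ} (hz : z ∈ lvl O ρ) {v : ι → ℂ}
    (hv : v ∈ ctangent (lvl O ρ) z) {ℓ : Normal (lvl O ρ) z}
    (hℓ : IsLeviValue (lvl O ρ) z v ℓ) :
    h.nu hz ℓ = fderiv ℝ (fderiv ℝ ρ) z v v
      + fderiv ℝ (fderiv ℝ ρ) z (Complex.I • v) (Complex.I • v) := by
  obtain ⟨X, hX, hXc, rfl, hmem, rfl⟩ := hℓ
  have hXd : HasFDerivAt X (fderiv ℝ X z) z := (hX.differentiableAt (by norm_num)).hasFDerivAt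
  have hρ2 : HasFDerivAt (fderiv ℝ ρ) (fderiv ℝ (fderiv ℝ ρ) z) z :=
    (h.diffAt_fderiv hz.1).hasFDerivAt
  rw [h.mem_ctangent hz] at hv
  have hII : Complex.I • Complex.I • X z = -X z := by
    rw [smul_smul, Complex.I_mul_I, neg_one_smul]
  -- differentiate along curves
  have key : ∀ (w : ι → ℂ), fderiv ℝ ρ z w = 0 →
      fderiv ℝ (fderiv ℝ ρ) z w (X z) + fderiv ℝ ρ z (fderiv ℝ X z w) = 0 ∧
      fderiv ℝ (fderiv ℝ ρ) z w (Complex.I • X z)
        + fderiv ℝ ρ z (Complex.I • fderiv ℝ X z w) = 0 := by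
    intro w hw
    obtain ⟨γ, hγ0, hγM, hγ⟩ := h.curve hz hw
    have hγX : HasDerivAt (fun s => X (γ s)) (fderiv ℝ X z w) 0 := by
      have : HasFDerivAt X (fderiv ℝ X z) (γ 0) := by rw [hγ0]; exact hXd
      exact this.comp_hasDerivAt (0:ℝ) hγ
    have hγρ : HasDerivAt (fun s => fderiv ℝ ρ (γ s)) (fderiv ℝ (fderiv ℝ ρ) z w) 0 := by
      have : HasFDerivAt (fderiv ℝ ρ) (fderiv ℝ (fderiv ℝ ρ) z) (γ 0) := by rw [hγ0]; exact hρ2
      exact this.comp_hasDerivAt (0:ℝ) hγ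
    have hev : ∀ᶠ s in 𝓝 (0:ℝ), fderiv ℝ ρ (γ s) (X (γ s)) = 0 ∧
        fderiv ℝ ρ (γ s) (Complex.I • X (γ s)) = 0 := by
      have h1 : Tendsto γ (𝓝 0) (𝓝[lvl O ρ] z) := by
        refine tendsto_nhdsWithin_iff.2 ⟨?_, hγM⟩
        have := hγ.continuousAt.tendsto
        rwa [hγ0] at this
      filter_upwards [h1.eventually hXc, hγM] with s hs1 hs2
      exact (h.mem_ctangent hs2).1 hs1
    constructor
    · have h2 := hγρ.clm_apply hγX
      simp only [hγ0] at h2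
      have h3 : HasDerivAt (fun s => fderiv ℝ ρ (γ s) (X (γ s))) 0 0 := by
        refine (hasDerivAt_const (0:ℝ) (0 : Fin d → ℝ)).congr_of_eventuallyEq ?_
        filter_upwards [hev] with s hs
        exact hs.1
      exact h2.unique h3
    · have h2 := hγρ.clm_apply (hγX.fun_const_smul Complex.I)
      simp only [hγ0] at h2
      have h3 : HasDerivAt (fun s => fderiv ℝ ρ (γ s) (Complex.I • X (γ s))) 0 0 := by
        refine (hasDerivAt_const (0:ℝ) (0 : Fin d → ℝ)).congr_of_eventuallyEq ?_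
        filter_upwards [hev] with s hs
        exact hs.2
      exact h2.unique h3
  have k1 := (key (X z) hv.1).1
  have k2 := (key (Complex.I • X z) hv.2).2
  rw [nu_mk]
  simp only [smul_sub, map_sub]
  have e1 : Complex.I • Complex.I • fderiv ℝ X z (X z) = -fderiv ℝ X z (X z) := by
    rw [smul_smul, Complex.I_mul_I, neg_one_smul]
  rw [e1, map_neg]
  have k1' := eq_neg_of_add_eq_zero_left k1
  have k2' := eq_neg_of_add_eq_zero_left k2
  rw [k1', k2']
  abel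

end Gen

end Pool.Agent.H914R3.CR
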