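import Pool.Agent.H914R3.CR.Model

set_option autoImplicit false
open scoped ContDiff Topology
open Filter Set MeasureTheory

namespace Pool.Agent.H914R3.CR

section homog

variable {E : Type} [NormedAddCommGroup E] [NormedSpace ℝ E] [FiniteDimensional ℝ E]

omit [FiniteDimensional ℝ E] in
theorem homog_zero {F : Type} [NormedAddCommGroup F] [NormedSpace ℝ F] (f : E → F) (m : ℝ)
    (hm : 0 < m) (hf : ∀ t : ℝ, 0 < t → ∀ x, f (t • x) = t ^ m • f x) : f 0 = 0 := by
  have h := hf 2 two_pos 0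
  rw [smul_zero] at h
  have h1 : (1:ℝ) < 2 ^ m := Real.one_lt_rpow (by norm_num) hm
  have h2 : ((2:ℝ) ^ m - 1) • f 0 = 0 := by rw [sub_smul, one_smul, ← h, sub_self]
  rcases smul_eq_zero.1 h2 with h3 | h3
  · linarith
  · exact h3

theorem homog_bound {F : Type} [NormedAddCommGroup F] [NormedSpace ℝ F] (f : E → F) (m : ℝ)
    (hm : 0 < m) (hf : ∀ t : ℝ, 0 < t → ∀ x, f (t • x) = t ^ m • f x)
    (hc : ContinuousOn f {0}ᶜ) : ∃ C : ℝ, 0 ≤ C ∧ ∀ x, ‖f x‖ ≤ C * ‖x‖ ^ m := by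
  have hcomp : IsCompact (Metric.sphere (0:E) 1) := isCompact_sphere 0 1
  have hsub : Metric.sphere (0:E) 1 ⊆ {0}ᶜ := by
    intro x hx h
    rw [mem_singleton_iff] at h
    rw [h, mem_sphere_zero_iff_norm, norm_zero] at hx
    exact zero_ne_one hx
  obtain ⟨C, hC⟩ := hcomp.exists_bound_of_continuousOn (hc.mono hsub)
  refine ⟨max C 0, le_max_right _ _, fun x => ?_⟩
  rcases eq_or_ne x 0 with rfl | hx
  · rw [homog_zero f m hm hf, norm_zero, norm_zero, Real.zero_rpow hm.ne', mul_zero]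
  · have hn : 0 < ‖x‖ := norm_pos_iff.2 hx
    have h1 : x = ‖x‖ • (‖x‖⁻¹ • x) := by rw [smul_smul, mul_inv_cancel₀ hn.ne', one_smul]
    have h2 : ‖x‖⁻¹ • x ∈ Metric.sphere (0:E) 1 := by
      rw [mem_sphere_zero_iff_norm, norm_smul, norm_inv, norm_norm, inv_mul_cancel₀ hn.ne']
    have h3 := hf ‖x‖ hn (‖x‖⁻¹ • x)
    rw [← h1] at h3
    rw [h3, norm_smul, Real.norm_eq_abs, abs_of_nonneg (by positivity), mul_comm]
    gcongr
    exact (hC _ h2).trans (le_max_left _ _)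

theorem homog_contDiff (n : ℕ) : ∀ {F : Type} [NormedAddCommGroup F] [NormedSpace ℝ F]
    (f : E → F) (m : ℝ), (n : ℝ) < m → (∀ t : ℝ, 0 < t → ∀ x, f (t • x) = t ^ m • f x) →
    ContDiffOn ℝ n f {0}ᶜ → ContDiff ℝ n f := by
  induction n with
  | zero =>
    intro F _ _ f m hm hf hc
    have hm : 0 < m := by simpa using hm
    have hc0 : ContinuousOn f {0}ᶜ := hc.continuousOn
    obtain ⟨C, hC0, hC⟩ := homog_bound f m hm hf hc0
    have : Continuous f := by
      rw [continuous_iff_continuousAt]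
      intro x
      rcases eq_or_ne x 0 with rfl | hx
      · rw [ContinuousAt, homog_zero f m hm hf]
        refine squeeze_zero_norm (a := fun x => C * ‖x‖ ^ m) hC ?_
        have h1 : Continuous fun x : E => C * ‖x‖ ^ m :=
          continuous_const.mul (continuous_norm.rpow_const fun _ => Or.inr hm.le)
        have h2 := h1.tendsto 0
        simpa [Real.zero_rpow hm.ne'] using h2
      · exact hc0.continuousAt (isOpen_compl_singleton.mem_nhds hx)
    exact_mod_cast contDiff_zero.2 this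
  | succ n ih =>
    intro F _ _ f m hm hf hc
    have hm1 : (n : ℝ) + 1 < m := by exact_mod_cast hm
    have hn0 : (0:ℝ) ≤ n := Nat.cast_nonneg n
    have hm0 : 0 < m := by linarith
    obtain ⟨C, hC0, hC⟩ := homog_bound f m hm0 hf hc.continuousOn
    have hd0 : HasFDerivAt f (0 : E →L[ℝ] F) 0 := by
      rw [hasFDerivAt_iff_isLittleO_nhds_zero]
      have h1 : (fun h : E => f (0 + h) - f 0 - (0 : E →L[ℝ] F) h) = f := by
        funext h
        rw [homog_zero f m hm0 hf]; simp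
      rw [h1]
      have h2 : f =O[𝓝 0] fun x => ‖x‖ ^ m :=
        Asymptotics.IsBigO.of_bound C (Eventually.of_forall fun x => by
          rw [Real.norm_of_nonneg (by positivity)]; exact hC x)
      refine h2.trans_isLittleO ?_
      rw [Asymptotics.isLittleO_iff]
      intro c hc
      have h3 : Continuous fun x : E => ‖x‖ ^ (m - 1) :=
        continuous_norm.rpow_const fun _ => Or.inr (by linarith)
      have h4 := h3.tendsto 0
      rw [norm_zero, Real.zero_rpow (by linarith)] at h4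
      filter_upwards [h4.eventually (gt_mem_nhds hc)] with x hx
      rw [Real.norm_of_nonneg (by positivity)]
      rcases eq_or_ne x 0 with rfl | hx0
      · simp [Real.zero_rpow hm0.ne']
      · have hn : 0 < ‖x‖ := norm_pos_iff.2 hx0
        have : ‖x‖ ^ m = ‖x‖ ^ (m - 1) * ‖x‖ := by
          nth_rewrite 3 [← Real.rpow_one ‖x‖]
          rw [← Real.rpow_add hn]; congr 1; ring
        rw [this]
        gcongr
    have hd : Differentiable ℝ f := by
      intro x
      rcases eq_or_ne x 0 with rfl | hx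
      · exact hd0.differentiableAt
      · exact (hc.contDiffAt (isOpen_compl_singleton.mem_nhds hx)).differentiableAt (by simp)
    have hhom : ∀ t : ℝ, 0 < t → ∀ x, fderiv ℝ f (t • x) = t ^ (m - 1) • fderiv ℝ f x := by
      intro t ht x
      have h1 : (fun x => f (t • x)) = fun x => t ^ m • f x := funext fun x => hf t ht x
      have h2 : fderiv ℝ (fun x => f (t • x)) x = t • fderiv ℝ f (t • x) := fderiv_comp_smul _
      rw [h1, fderiv_fun_const_smul (hd x)] at h2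
      have h3 : t ^ m = t * t ^ (m - 1) := by
        nth_rewrite 2 [← Real.rpow_one t]
        rw [← Real.rpow_add ht]; congr 1; ring
      rw [h3, mul_smul] at h2
      exact (smul_right_injective _ ht.ne' h2).symm
    have hfd : ContDiffOn ℝ n (fderiv ℝ f) {0}ᶜ := by
      refine hc.fderiv_of_isOpen isOpen_compl_singleton ?_
      norm_cast
    have h := ih (fderiv ℝ f) (m - 1) (by linarith) hhom hfd
    rw [show ((n + 1 : ℕ) : ℕ∞ω) = (n : ℕ∞ω) + 1 by norm_cast, contDiff_succ_iff_fderiv]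
    refine ⟨hd, ?_, h⟩
    intro hω
    exact absurd hω (by simp)

end homog

theorem norm_rpow_smooth (k : ℕ) (m : ℝ) (hm : (k:ℝ) < m) :
    ContDiff ℝ k (fun ζ : ℂ => ‖ζ‖ ^ m) := by
  refine homog_contDiff k (fun ζ : ℂ => ‖ζ‖ ^ m) m hm ?_ ?_
  · intro t ht x
    rw [norm_smul, Real.norm_eq_abs, abs_of_pos ht, Real.mul_rpow ht.le (norm_nonneg _),
      smul_eq_mul]
  · intro x hx
    have hx : x ≠ 0 := hx
    have h1 : ContDiffAt ℝ k (fun ζ : ℂ => ‖ζ‖) x := contDiffAt_norm ℝ hx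
    exact (h1.rpow_const_of_ne (norm_ne_zero_iff.2 hx)).contDiffWithinAt

theorem exists_KS (k : ℕ) (hk : 2 ≤ k) (m : ℝ) (hm : (k:ℝ) < m) :
    ∃ δ : ℝ, 0 < δ ∧ KS (k : ℕ∞) (fun ζ : ℂ => δ * ‖1 - ζ‖ ^ m) := by
  set K0 : ℂ → ℝ := fun ζ => ‖1 - ζ‖ ^ m with hK0
  have hs : ContDiff ℝ k K0 :=
    (norm_rpow_smooth k m hm).comp (contDiff_const.sub contDiff_id)
  have hs2 : ContDiff ℝ 2 K0 := hs.of_le (by exact_mod_cast hk)
  have hs1 : ContDiff ℝ 1 (fderiv ℝ K0) := hs2.fderiv_right (by norm_num)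
  have hcomp : IsCompact (Metric.closedBall (0:ℂ) 2) := isCompact_closedBall 0 2
  obtain ⟨C0, h0⟩ := hcomp.exists_bound_of_continuousOn hs.continuous.continuousOn
  obtain ⟨C1, h1⟩ := hcomp.exists_bound_of_continuousOn hs1.continuous.continuousOn
  obtain ⟨C2, h2⟩ := hcomp.exists_bound_of_continuousOn
    (hs1.continuous_fderiv (by norm_num)).continuousOn
  have e0 := abs_nonneg C0
  have e1 := abs_nonneg C1
  have e2 := abs_nonneg C2
  have f0 := le_abs_self C0
  have f1 := le_abs_self C1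
  have f2 := le_abs_self C2
  set M : ℝ := 2 * (1 + |C0| + |C1| + |C2|) with hM
  have hMpos : 0 < M := by positivity
  refine ⟨M⁻¹, by positivity, ?_⟩
  have hfd : fderiv ℝ (fun ζ => M⁻¹ * K0 ζ) = fun ζ => M⁻¹ • fderiv ℝ K0 ζ := by
    funext ζ
    exact fderiv_const_mul ((hs2.differentiable (by norm_num)) ζ) _
  have hfd2 : ∀ ζ, fderiv ℝ (fderiv ℝ (fun ζ => M⁻¹ * K0 ζ)) ζ
      = M⁻¹ • fderiv ℝ (fderiv ℝ K0) ζ := by
    intro ζ
    rw [hfd]
    exact fderiv_fun_const_smul ((hs1.differentiable (by norm_num)) ζ) _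
  have hmem : ∀ ζ : ℂ, ‖ζ‖ ≤ 2 → ζ ∈ Metric.closedBall (0:ℂ) 2 := fun ζ h => by
    rwa [mem_closedBall_zero_iff]
  constructor
  · have : ContDiff ℝ k (fun ζ => M⁻¹ * K0 ζ) := contDiff_const.mul hs
    exact_mod_cast this
  · intro ζ
    have : 0 ≤ ‖1 - ζ‖ ^ m := by positivity
    positivity
  · intro ζ hζ
    have h3 := h0 ζ (hmem ζ hζ)
    have h4 : K0 ζ ≤ M := by
      have := (le_abs_self _).trans h3
      linarith
    calc M⁻¹ * K0 ζ ≤ M⁻¹ * M := by gcongr
      _ = 1 := inv_mul_cancel₀ hMpos.ne'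
  · intro ζ hζ v
    have h3 := h1 ζ (hmem ζ hζ)
    have h4 : fderiv ℝ (fun ζ => M⁻¹ * K0 ζ) ζ v = M⁻¹ * fderiv ℝ K0 ζ v := by
      rw [hfd]; rfl
    have h5 : |fderiv ℝ K0 ζ v| ≤ (M / 2) * ‖v‖ := by
      have := (fderiv ℝ K0 ζ).le_opNorm v
      rw [Real.norm_eq_abs] at this
      refine this.trans ?_
      gcongr
      linarith
    show |fderiv ℝ (fun ζ => M⁻¹ * K0 ζ) ζ v| ≤ _
    rw [h4, abs_mul, abs_of_pos (by positivity : 0 < M⁻¹)]
    calc M⁻¹ * |fderiv ℝ K0 ζ v| ≤ M⁻¹ * ((M / 2) * ‖v‖) := by gcongr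
      _ = 1 / 2 * ‖v‖ := by field_simp
  · intro ζ hζ v
    have h3 := h2 ζ (hmem ζ hζ)
    have h4 : fderiv ℝ (fderiv ℝ (fun ζ => M⁻¹ * K0 ζ)) ζ v v
        = M⁻¹ * fderiv ℝ (fderiv ℝ K0) ζ v v := by
      rw [hfd2]; rfl
    have h5 : fderiv ℝ (fderiv ℝ K0) ζ v v ≤ M * ‖v‖ ^ 2 := by
      have := (fderiv ℝ (fderiv ℝ K0) ζ).le_opNorm₂ v v
      refine (Real.le_norm_self _).trans (this.trans ?_)
      rw [mul_assoc, ← sq]
      gcongr
      linarith
    show fderiv ℝ (fderiv ℝ (fun ζ => M⁻¹ * K0 ζ)) ζ v v ≤ _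
    rw [h4]
    calc M⁻¹ * fderiv ℝ (fderiv ℝ K0) ζ v v ≤ M⁻¹ * (M * ‖v‖ ^ 2) := by gcongr
      _ = ‖v‖ ^ 2 := by field_simp

theorem KS_zero : ∀ k : ℕ∞, KS k (fun _ : ℂ => (0:ℝ)) := by
  intro k
  constructor
  · exact contDiff_const
  · intro _; exact le_rfl
  · intro _ _; exact zero_le_one
  · intro ζ _ v
    have : fderiv ℝ (fun _ : ℂ => (0:ℝ)) ζ = 0 := by simp
    rw [this]
    simp
  · intro ζ _ v
    have : fderiv ℝ (fun _ : ℂ => (0:ℝ)) = fun _ => 0 := by
      funext w; simp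
    rw [this]
    simp

end Pool.Agent.H914R3.CR
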