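import Pool.Agent.H914R3.CR.Quad

set_option autoImplicit false
open scoped ContDiff Topology
open Filter Set MeasureTheory

namespace Pool.Agent.H914R3.CR

variable {ι : Type} [Fintype ι]

/-- Two complementary blocks of coordinates, each with two distinguished members. -/
structure Blocks (b0 b1 : ι → ℝ) (i0 i1 j0 j1 : ι) : Prop where
  dich : ∀ i, (b0 i = 1 ∧ b1 i = 0) ∨ (b0 i = 0 ∧ b1 i = 1)
  hi0 : b0 i0 = 1
  hi1 : b0 i1 = 1
  hi : i0 ≠ i1
  hj0 : b1 j0 = 1
  hj1 : b1 j1 = 1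
  hj : j0 ≠ j1

/-- Admissible perturbations. -/
structure KS (k : ℕ∞) (κ : ℂ → ℝ) : Prop where
  smooth : ContDiff ℝ k κ
  nonneg : ∀ ζ, 0 ≤ κ ζ
  le_one : ∀ ζ, ‖ζ‖ ≤ 2 → κ ζ ≤ 1
  d1 : ∀ ζ, ‖ζ‖ ≤ 2 → ∀ v, |fderiv ℝ κ ζ v| ≤ 1 / 2 * ‖v‖
  d2 : ∀ ζ, ‖ζ‖ ≤ 2 → ∀ v, fderiv ℝ (fderiv ℝ κ) ζ v v ≤ ‖v‖ ^ 2

noncomputable def rh (b0 b1 : ι → ℝ) (j0 : ι) (κ : ℂ → ℝ) (x : ι → ℂ) : Fin 2 → ℝ :=
  ![Q b0 x - 1, Q b1 x - 1 - κ (x j0)]

def OO (b0 b1 : ι → ℝ) (j0 : ι) : Set (ι → ℂ) := {x | 1 / 2 < Q b0 x ∧ 1 / 2 < Q b1 x ∧ ‖x j0‖ < 2}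

section

variable {b0 b1 : ι → ℝ} {i0 i1 j0 j1 : ι} {k : ℕ∞} {κ : ℂ → ℝ}

omit [Fintype ι] in
theorem Blocks.n0 (hB : Blocks b0 b1 i0 i1 j0 j1) (i : ι) : 0 ≤ b0 i := by
  rcases hB.dich i with h | h <;> rw [h.1] <;> norm_num

omit [Fintype ι] in
theorem Blocks.n1 (hB : Blocks b0 b1 i0 i1 j0 j1) (i : ι) : 0 ≤ b1 i := by
  rcases hB.dich i with h | h <;> rw [h.2] <;> norm_num

theorem two_le_cast (hk : 2 ≤ k) : (2 : ℕ∞ω) ≤ (k : ℕ∞ω) := WithTop.coe_le_coe.2 hk

theorem smooth0 : ContDiff ℝ ∞ (fun x : ι → ℂ => Q b0 x - 1) := (Q_smooth b0).sub contDiff_const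

theorem smooth1 (hK : KS k κ) : ContDiff ℝ k (fun x : ι → ℂ => Q b1 x - 1 - κ (x j0)) := by
  refine ContDiff.sub (((Q_smooth b1).of_le ?_).sub contDiff_const) ?_
  · exact_mod_cast le_top
  · exact hK.smooth.comp (contDiff_apply ℝ ℂ j0)

theorem smooth_rh (hK : KS k κ) : ContDiff ℝ k (rh b0 b1 j0 κ) := by
  rw [contDiff_pi]
  intro j
  fin_cases j
  · exact (smooth0 (b0 := b0)).of_le (by exact_mod_cast le_top)
  · exact smooth1 hK

theorem f0 (x v : ι → ℂ) : fderiv ℝ (fun x : ι → ℂ => Q b0 x - 1) x v = dQ b0 x v := by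
  rw [((hasFDerivAt_Q b0 x).sub_const 1).fderiv]

theorem f1 (hk : 2 ≤ k) (hK : KS k κ) (x v : ι → ℂ) :
    fderiv ℝ (fun x : ι → ℂ => Q b1 x - 1 - κ (x j0)) x v
      = dQ b1 x v - fderiv ℝ κ (x j0) (v j0) := by
  set P := ContinuousLinearMap.proj (R := ℝ) (φ := fun _ : ι => ℂ) j0 with hP
  have hd : DifferentiableAt ℝ κ (P x) :=
    ((hK.smooth.of_le (two_le_cast hk)).differentiable (by norm_num)).differentiableAt
  have h1 : HasFDerivAt (fun x : ι → ℂ => κ (x j0)) ((fderiv ℝ κ (P x)).comp P) x :=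
    hd.hasFDerivAt.comp x P.hasFDerivAt
  have h2 := ((hasFDerivAt_Q b1 x).sub_const 1).sub h1
  have h3 : fderiv ℝ (fun x : ι → ℂ => Q b1 x - 1 - κ (x j0)) x
      = dQ b1 x - (fderiv ℝ κ (P x)).comp P := h2.fderiv
  rw [h3]
  rfl

theorem g0 (x v : ι → ℂ) : fderiv ℝ (fderiv ℝ (fun x : ι → ℂ => Q b0 x - 1)) x v v
    = 2 * Q b0 v := by
  have h : fderiv ℝ (fun x : ι → ℂ => Q b0 x - 1) = dQ b0 := by
    funext x
    rw [((hasFDerivAt_Q b0 x).sub_const 1).fderiv]
  rw [h, ContinuousLinearMap.fderiv, dQ_self]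

theorem g1 (hk : 2 ≤ k) (hK : KS k κ) (x v : ι → ℂ) :
    fderiv ℝ (fderiv ℝ (fun x : ι → ℂ => Q b1 x - 1 - κ (x j0))) x v v
      = 2 * Q b1 v - fderiv ℝ (fderiv ℝ κ) (x j0) (v j0) (v j0) := by
  set P := ContinuousLinearMap.proj (R := ℝ) (φ := fun _ : ι => ℂ) j0 with hP
  have hκ2 : ContDiff ℝ 2 κ := hK.smooth.of_le (two_le_cast hk)
  have h : fderiv ℝ (fun x : ι → ℂ => Q b1 x - 1 - κ (x j0))
      = fun x => dQ b1 x - (fderiv ℝ κ (P x)).comp P := by
    funext x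
    ext v
    rw [f1 hk hK]
    rfl
  rw [h]
  have hd : DifferentiableAt ℝ (fderiv ℝ κ) (P x) :=
    ((hκ2.fderiv_right (m := 1) (by norm_num)).differentiable (by norm_num)).differentiableAt
  have h6 : HasFDerivAt (fun w => fderiv ℝ κ (P w)) ((fderiv ℝ (fderiv ℝ κ) (P x)).comp P) x :=
    hd.hasFDerivAt.comp x P.hasFDerivAt
  have h7 : HasFDerivAt (fun w => (fderiv ℝ κ (P w)).comp P)
      ((((ContinuousLinearMap.compL ℝ (ι → ℂ) ℂ ℝ).flip P)).comp
        ((fderiv ℝ (fderiv ℝ κ) (P x)).comp P)) x :=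
    ((ContinuousLinearMap.compL ℝ (ι → ℂ) ℂ ℝ).flip P).hasFDerivAt.comp x h6
  have h8 : HasFDerivAt (fun w => dQ b1 w - (fderiv ℝ κ (P w)).comp P)
      (dQ b1 - (((ContinuousLinearMap.compL ℝ (ι → ℂ) ℂ ℝ).flip P)).comp
        ((fderiv ℝ (fderiv ℝ κ) (P x)).comp P)) x := (dQ b1).hasFDerivAt.sub h7
  rw [h8.fderiv, _root_.sub_apply, _root_.sub_apply, dQ_self]
  rfl

theorem OO_open : IsOpen (OO b0 b1 j0) := by
  have h0 := (Q_smooth b0).continuous
  have h1 := (Q_smooth b1).continuous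
  exact (isOpen_lt continuous_const h0).inter ((isOpen_lt continuous_const h1).inter
    (isOpen_lt (continuous_apply j0).norm continuous_const))

theorem dQ_mul (b : ι → ℝ) (x v : ι → ℂ) (h : ∀ i, b i = 0 ∨ v i = 0) : dQ b x v = 0 := by
  rw [dQ_apply]
  apply Finset.sum_eq_zero
  intro i _
  rcases h i with h | h <;> rw [h] <;> simp

/-- restriction of a vector to a block -/
noncomputable def res (b : ι → ℝ) (x : ι → ℂ) : ι → ℂ := fun i => (b i : ℂ) * x i

theorem dQ_res (b : ι → ℝ) (hb : ∀ i, b i = 0 ∨ b i = 1) (x : ι → ℂ) :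
    dQ b x (res b x) = 2 * Q b x := by
  rw [dQ_apply, Q, Finset.mul_sum]
  apply Finset.sum_congr rfl
  intro i _
  unfold res
  rcases hb i with h | h
  · rw [h]; simp
  · rw [h, Complex.ofReal_one, one_mul, real_inner_self_eq_norm_sq]
    ring

theorem gen (hB : Blocks b0 b1 i0 i1 j0 j1) (hk : 2 ≤ k) (hK : KS k κ) :
    Gen k (OO b0 b1 j0) (rh b0 b1 j0 κ) := by
  refine ⟨OO_open, hk, (smooth_rh hK).contDiffOn, ?_⟩
  intro x hx s t
  have hdiff : DifferentiableAt ℝ (rh b0 b1 j0 κ) x :=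
    (((smooth_rh hK).of_le (two_le_cast hk)).differentiable (by norm_num)).differentiableAt
  have hv0 : ∀ v, fderiv ℝ (rh b0 b1 j0 κ) x v 0 = dQ b0 x v := by
    intro v
    rw [fderiv_comp hdiff]
    exact f0 x v
  have hv1 : ∀ v, fderiv ℝ (rh b0 b1 j0 κ) x v 1 = dQ b1 x v - fderiv ℝ κ (x j0) (v j0) := by
    intro v
    rw [fderiv_comp hdiff]
    exact f1 hk hK x v
  obtain ⟨hx0, hx1, hx2⟩ := hx
  set A := Gen.cx (rh b0 b1 j0 κ) x with hA
  have hAre : ∀ v j, (A v j).re = fderiv ℝ (rh b0 b1 j0 κ) x v j := by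
    intro v j
    simp [hA, Gen.cx]
  have hAim : ∀ v j, (A v j).im = - fderiv ℝ (rh b0 b1 j0 κ) x (Complex.I • v) j := by
    intro v j
    simp [hA, Gen.cx]
  set e0 := res b0 x with he0
  set e1 := res b1 x with he1
  have hb0 : ∀ i, b0 i = 0 ∨ b0 i = 1 := fun i => by
    rcases hB.dich i with h | h
    · exact Or.inr h.1
    · exact Or.inl h.1
  have hb1 : ∀ i, b1 i = 0 ∨ b1 i = 1 := fun i => by
    rcases hB.dich i with h | h
    · exact Or.inl h.2
    · exact Or.inr h.2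
  have hz01 : ∀ i, b1 i = 0 ∨ e0 i = 0 := fun i => by
    rcases hB.dich i with h | h
    · exact Or.inl h.2
    · right; simp [he0, res, h.1]
  have hz10 : ∀ i, b0 i = 0 ∨ e1 i = 0 := fun i => by
    rcases hB.dich i with h | h
    · right; simp [he1, res, h.2]
    · exact Or.inl h.1
  have he0j : e0 j0 = 0 := by
    rcases hB.dich j0 with h | h
    · have := hB.hj0; rw [h.2] at this; norm_num at this
    · simp [he0, res, h.1]
  have h00 : A e0 0 ≠ 0 := by
    intro h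
    have h1 := congrArg Complex.re h
    rw [hAre, hv0, dQ_res b0 hb0, Complex.zero_re] at h1
    linarith
  have h01 : A e0 1 = 0 := by
    apply Complex.ext
    · rw [hAre, hv1, dQ_mul b1 x e0 hz01, he0j]
      simp
    · rw [hAim, hv1, dQ_mul b1 x (Complex.I • e0) (fun i => by
        rcases hz01 i with h | h
        · exact Or.inl h
        · right; simp [h])]
      simp [he0j]
  have h10 : A e1 0 = 0 := by
    apply Complex.ext
    · rw [hAre, hv0, dQ_mul b0 x e1 hz10]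
      simp
    · rw [hAim, hv0, dQ_mul b0 x (Complex.I • e1) (fun i => by
        rcases hz10 i with h | h
        · exact Or.inl h
        · right; simp [h])]
      simp
  have h11 : A e1 1 ≠ 0 := by
    intro h
    have h1 := congrArg Complex.re h
    rw [hAre, hv1, dQ_res b1 hb1, Complex.zero_re] at h1
    have h2 : e1 j0 = x j0 := by simp [he1, res, hB.hj0]
    rw [h2] at h1
    have h3 := hK.d1 (x j0) hx2.le (x j0)
    have h4 := le_Q hB.n1 hB.hj0 x
    have h5 := (abs_le.1 h3).2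
    have h6 := norm_nonneg (x j0)
    nlinarith
  -- solve
  set w : Fin 2 → ℂ := fun j => (s j : ℂ) - Complex.I * (t j : ℂ) with hw
  set v := (w 0 / A e0 0) • e0 + (w 1 / A e1 1) • e1 with hv
  have hAv : A v = w := by
    funext j
    rw [hv, map_add, map_smul, map_smul]
    fin_cases j
    · simp only [Fin.zero_eta, Pi.add_apply, Pi.smul_apply, smul_eq_mul, h10]
      field_simp
      ring
    · simp only [Fin.mk_one, Pi.add_apply, Pi.smul_apply, smul_eq_mul, h01]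
      field_simp
      ring
  refine ⟨v, ?_, ?_⟩
  · funext j
    rw [← hAre, hAv]
    simp [hw]
  · funext j
    have := hAim v j
    rw [hAv] at this
    have h2 : (w j).im = - t j := by simp [hw]
    rw [h2] at this
    linarith

theorem Lv0 (hk : 2 ≤ k) (hK : KS k κ) (z v : ι → ℂ) :
    Lv (rh b0 b1 j0 κ) z v 0 = 4 * Q b0 v := by
  have hc : ContDiffAt ℝ 2 (rh b0 b1 j0 κ) z :=
    ((smooth_rh hK).of_le (two_le_cast hk)).contDiffAt
  unfold Lv
  rw [Pi.add_apply, fderiv2_comp hc, fderiv2_comp hc]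
  have h1 : ∀ v : ι → ℂ, fderiv ℝ (fderiv ℝ (fun x => rh b0 b1 j0 κ x 0)) z v v = 2 * Q b0 v :=
    fun v => g0 z v
  rw [h1, h1, Q_I]
  ring

theorem Lv1 (hk : 2 ≤ k) (hK : KS k κ) (z v : ι → ℂ) :
    Lv (rh b0 b1 j0 κ) z v 1 = 4 * Q b1 v - fderiv ℝ (fderiv ℝ κ) (z j0) (v j0) (v j0)
      - fderiv ℝ (fderiv ℝ κ) (z j0) (Complex.I * v j0) (Complex.I * v j0) := by
  have hc : ContDiffAt ℝ 2 (rh b0 b1 j0 κ) z :=
    ((smooth_rh hK).of_le (two_le_cast hk)).contDiffAt
  unfold Lv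
  rw [Pi.add_apply, fderiv2_comp hc, fderiv2_comp hc]
  have h1 : ∀ v : ι → ℂ, fderiv ℝ (fderiv ℝ (fun x => rh b0 b1 j0 κ x 1)) z v v
      = 2 * Q b1 v - fderiv ℝ (fderiv ℝ κ) (z j0) (v j0) (v j0) := fun v => g1 hk hK z v
  rw [h1, h1, Q_I]
  simp only [Pi.smul_apply, smul_eq_mul]
  ring

theorem levi_model [DecidableEq ι] (hB : Blocks b0 b1 i0 i1 j0 j1) (hk : 2 ≤ k) (hK : KS k κ) :
    LeviCondition (lvl (OO b0 b1 j0) (rh b0 b1 j0 κ)) := by
  have hg := gen hB hk hK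
  have hlow : ∀ z ∈ lvl (OO b0 b1 j0) (rh b0 b1 j0 κ), ∀ v : ι → ℂ,
      2 * Q b1 v ≤ Lv (rh b0 b1 j0 κ) z v 1 := by
    intro z hz v
    rw [Lv1 hk hK]
    have h1 := hK.d2 (z j0) hz.1.2.2.le (v j0)
    have h2 := hK.d2 (z j0) hz.1.2.2.le (Complex.I * v j0)
    have h3 : ‖Complex.I * v j0‖ = ‖v j0‖ := by simp
    rw [h3] at h2
    have h4 := le_Q hB.n1 hB.hj0 v
    linarith
  have hcomp : ∀ z ∈ lvl (OO b0 b1 j0) (rh b0 b1 j0 κ), ∀ v : ι → ℂ,
      (Gen.cx (rh b0 b1 j0 κ) z v = 0 → fderiv ℝ (rh b0 b1 j0 κ) z v = 0 ∧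
        fderiv ℝ (rh b0 b1 j0 κ) z (Complex.I • v) = 0) := by
    intro z hz v hv
    constructor
    · funext j
      have := congrArg Complex.re (congrFun hv j)
      simpa [Gen.cx] using this
    · funext j
      have := congrArg Complex.im (congrFun hv j)
      simpa [Gen.cx] using this
  have hdiff : ∀ z, DifferentiableAt ℝ (rh b0 b1 j0 κ) z := fun z =>
    (((smooth_rh hK).of_le (two_le_cast hk)).differentiable (by norm_num)).differentiableAt
  have hv0 : ∀ z v, fderiv ℝ (rh b0 b1 j0 κ) z v 0 = dQ b0 z v := by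
    intro z v
    rw [fderiv_comp (hdiff z)]
    exact f0 z v
  have hv1 : ∀ z v, fderiv ℝ (rh b0 b1 j0 κ) z v 1 = dQ b1 z v - fderiv ℝ κ (z j0) (v j0) := by
    intro z v
    rw [fderiv_comp (hdiff z)]
    exact f1 hk hK z v
  refine hg.leviCondition ?_ ?_ ?_
  · intro z hz v hv
    have h1 := hlow z hz v
    have h0 := Lv0 (b0 := b0) (b1 := b1) (j0 := j0) hk hK z v
    have hq0 := Q_nonneg hB.n0 v
    have hq1 := Q_nonneg hB.n1 v
    refine ⟨by linarith, by linarith, ?_⟩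
    obtain ⟨i, hi⟩ := Function.ne_iff.1 hv
    rcases hB.dich i with h | h
    · have := Q_pos hB.n0 h.1 hi
      linarith
    · have := Q_pos hB.n1 h.2 hi
      linarith
  · intro z hz
    obtain ⟨v, hv, hv2, hv3⟩ := exists_zero
      ((LinearMap.proj (R := ℂ) (φ := fun _ : Fin 2 => ℂ) 0).comp
        (Gen.cx (rh b0 b1 j0 κ) z)) hB.hi
    have hsup : ∀ i, b1 i = 0 ∨ v i = 0 := by
      intro i
      rcases hB.dich i with h | h
      · exact Or.inl h.2
      · right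
        apply hv3
        · rintro rfl
          have := hB.hi0; rw [h.1] at this; norm_num at this
        · rintro rfl
          have := hB.hi1; rw [h.1] at this; norm_num at this
    have hvj : v j0 = 0 := by
      rcases hsup j0 with h | h
      · have := hB.hj0; rw [h] at this; norm_num at this
      · exact h
    have hcx : Gen.cx (rh b0 b1 j0 κ) z v = 0 := by
      funext j
      fin_cases j
      · exact hv2
      · show Gen.cx (rh b0 b1 j0 κ) z v 1 = 0
        have e1 : fderiv ℝ (rh b0 b1 j0 κ) z v 1 = 0 := by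
          rw [hv1, dQ_mul b1 z v hsup, hvj]; simp
        have e2 : fderiv ℝ (rh b0 b1 j0 κ) z (Complex.I • v) 1 = 0 := by
          rw [hv1, dQ_mul b1 z (Complex.I • v) (fun i => by
            rcases hsup i with h | h
            · exact Or.inl h
            · right; simp [h])]
          simp [hvj]
        simp [Gen.cx, e1, e2]
    have hQ1 : Q b1 v = 0 := by
      unfold Q
      apply Finset.sum_eq_zero
      intro i _
      rcases hsup i with h | h <;> rw [h] <;> simp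
    obtain ⟨a1, a2⟩ := hcomp z hz v hcx
    refine ⟨v, hv, a1, a2, ?_, ?_⟩
    · rw [Lv0 hk hK]
      obtain ⟨i, hi⟩ := Function.ne_iff.1 hv
      rcases hB.dich i with h | h
      · have := Q_pos hB.n0 h.1 hi
        linarith
      · exfalso
        rcases hsup i with h' | h'
        · rw [h.2] at h'; norm_num at h'
        · exact hi h'
    · rw [Lv1 hk hK, hvj, hQ1]
      simp
  · intro z hz
    obtain ⟨v, hv, hv2, hv3⟩ := exists_zero
      ((LinearMap.proj (R := ℂ) (φ := fun _ : Fin 2 => ℂ) 1).comp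
        (Gen.cx (rh b0 b1 j0 κ) z)) hB.hj
    have hsup : ∀ i, b0 i = 0 ∨ v i = 0 := by
      intro i
      rcases hB.dich i with h | h
      · right
        apply hv3
        · rintro rfl
          have := hB.hj0; rw [h.2] at this; norm_num at this
        · rintro rfl
          have := hB.hj1; rw [h.2] at this; norm_num at this
      · exact Or.inl h.1
    have hcx : Gen.cx (rh b0 b1 j0 κ) z v = 0 := by
      funext j
      fin_cases j
      · show Gen.cx (rh b0 b1 j0 κ) z v 0 = 0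
        have e1 : fderiv ℝ (rh b0 b1 j0 κ) z v 0 = 0 := by
          rw [hv0, dQ_mul b0 z v hsup]
        have e2 : fderiv ℝ (rh b0 b1 j0 κ) z (Complex.I • v) 0 = 0 := by
          rw [hv0, dQ_mul b0 z (Complex.I • v) (fun i => by
            rcases hsup i with h | h
            · exact Or.inl h
            · right; simp [h])]
        simp [Gen.cx, e1, e2]
      · exact hv2
    have hQ0 : Q b0 v = 0 := by
      unfold Q
      apply Finset.sum_eq_zero
      intro i _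
      rcases hsup i with h | h <;> rw [h] <;> simp
    obtain ⟨a1, a2⟩ := hcomp z hz v hcx
    refine ⟨v, hv, a1, a2, ?_, ?_⟩
    · rw [Lv0 hk hK, hQ0, mul_zero]
    · have h1 := hlow z hz v
      obtain ⟨i, hi⟩ := Function.ne_iff.1 hv
      rcases hB.dich i with h | h
      · exfalso
        rcases hsup i with h' | h'
        · rw [h.1] at h'; norm_num at h'
        · exact hi h'
      · have := Q_pos hB.n1 h.2 hi
        linarith

theorem crdim_model (hB : Blocks b0 b1 i0 i1 j0 j1) (hk : 2 ≤ k) (hK : KS k κ) :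
    IsCRSubmanifold k 2 (Fintype.card ι - 2) (lvl (OO b0 b1 j0) (rh b0 b1 j0 κ)) := by
  have hg := gen hB hk hK
  refine ⟨hg.isSubmanifold, fun z hz => ?_⟩
  have := hg.finrank_ctangent hz
  omega

theorem mem_model (hK : KS k κ) {x : ι → ℂ} :
    x ∈ lvl (OO b0 b1 j0) (rh b0 b1 j0 κ) ↔
      Q b0 x = 1 ∧ Q b1 x = 1 + κ (x j0) ∧ ‖x j0‖ < 2 := by
  unfold lvl OO rh
  simp only [mem_ofPred_eq]
  constructor
  · rintro ⟨⟨h1, h2, h3⟩, h4⟩
    have e0 := congrFun h4 0
    have e1 := congrFun h4 1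
    simp at e0 e1
    exact ⟨by linarith, by linarith, h3⟩
  · rintro ⟨h1, h2, h3⟩
    have := hK.nonneg (x j0)
    refine ⟨⟨by linarith, by linarith, h3⟩, ?_⟩
    funext j
    fin_cases j
    · simp [h1]
    · simp [h2]

theorem compact_model (hB : Blocks b0 b1 i0 i1 j0 j1) (hK : KS k κ) :
    IsCompact (lvl (OO b0 b1 j0) (rh b0 b1 j0 κ)) := by
  have hj : ∀ x : ι → ℂ, Q b1 x = 1 + κ (x j0) → ‖x j0‖ ≤ 2 → ‖x j0‖ < 2 := by
    intro x h1 h2
    have h3 := hK.le_one (x j0) h2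
    have h4 := le_Q hB.n1 hB.hj0 x
    have h5 := norm_nonneg (x j0)
    nlinarith
  have he : lvl (OO b0 b1 j0) (rh b0 b1 j0 κ)
      = {x | Q b0 x = 1} ∩ ({x | Q b1 x = 1 + κ (x j0)} ∩ {x | ‖x j0‖ ≤ 2}) := by
    ext x
    rw [mem_model hK]
    constructor
    · rintro ⟨h1, h2, h3⟩
      exact ⟨h1, h2, h3.le⟩
    · rintro ⟨h1, h2, h3⟩
      exact ⟨h1, h2, hj x h2 h3⟩
  rw [he]
  refine Metric.isCompact_of_isClosed_isBounded ?_ ?_
  · have h0 := (Q_smooth b0).continuous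
    have h1 := (Q_smooth b1).continuous
    have h2 : Continuous fun x : ι → ℂ => κ (x j0) :=
      hK.smooth.continuous.comp (continuous_apply j0)
    exact (isClosed_eq h0 continuous_const).inter ((isClosed_eq h1 (continuous_const.add h2)).inter
      (isClosed_le (continuous_apply j0).norm continuous_const))
  · rw [isBounded_iff_forall_norm_le]
    refine ⟨2, ?_⟩
    rintro x ⟨h1, h2, h3⟩
    rw [pi_norm_le_iff_of_nonneg (by norm_num)]
    intro i
    have h1 : Q b0 x = 1 := h1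
    have h2 : Q b1 x = 1 + κ (x j0) := h2
    have h4 := hK.le_one (x j0) h3
    have h5 := norm_nonneg (x i)
    rcases hB.dich i with h | h
    · have := le_Q hB.n0 h.1 x
      nlinarith
    · have := le_Q hB.n1 h.2 x
      nlinarith

end

end Pool.Agent.H914R3.CR
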