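import Pool.Agent.H914R3.CR.Block

set_option autoImplicit false
open scoped ContDiff Topology
open Filter Set MeasureTheory

namespace Pool.Agent.H914R3.CR

variable {ι : Type} [Fintype ι]

/-- Weighted squared norm. -/
noncomputable def Q (b : ι → ℝ) (x : ι → ℂ) : ℝ := ∑ i, b i * ‖x i‖ ^ 2

/-- Its derivative, as a bilinear form. -/
noncomputable def dQ (b : ι → ℝ) : (ι → ℂ) →L[ℝ] (ι → ℂ) →L[ℝ] ℝ :=
  ∑ i, (2 * b i) • (((ContinuousLinearMap.compL ℝ (ι → ℂ) ℂ ℝ).flip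
    (ContinuousLinearMap.proj (R := ℝ) i)).comp (innerSL ℝ)).comp
      (ContinuousLinearMap.proj (R := ℝ) (φ := fun _ : ι => ℂ) i)

theorem dQ_apply (b : ι → ℝ) (v u : ι → ℂ) : dQ b v u = ∑ i, 2 * b i * inner ℝ (v i) (u i) := by
  unfold dQ
  rw [_root_.sum_apply, _root_.sum_apply]
  apply Finset.sum_congr rfl
  intro i _
  simp

theorem hasFDerivAt_Q (b : ι → ℝ) (x : ι → ℂ) : HasFDerivAt (Q b) (dQ b x) x := by
  have h : dQ b x = ∑ i, b i • (2 • (innerSL ℝ (x i)).comp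
      (ContinuousLinearMap.proj (R := ℝ) (φ := fun _ : ι => ℂ) i)) := by
    ext v
    rw [dQ_apply, _root_.sum_apply]
    apply Finset.sum_congr rfl
    intro i _
    rw [two_smul]
    simp only [_root_.smul_apply, _root_.add_apply, ContinuousLinearMap.comp_apply,
      ContinuousLinearMap.proj_apply, innerSL_apply_apply, smul_eq_mul]
    ring
  rw [h]
  unfold Q
  apply HasFDerivAt.fun_sum
  intro i _
  have h1 : HasFDerivAt (fun w : ι → ℂ => w i)
      (ContinuousLinearMap.proj (R := ℝ) (φ := fun _ : ι => ℂ) i) x :=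
    (ContinuousLinearMap.proj (R := ℝ) (φ := fun _ : ι => ℂ) i).hasFDerivAt
  exact (h1.norm_sq).const_mul (b i)

theorem fderiv_Q (b : ι → ℝ) : fderiv ℝ (Q b) = dQ b := funext fun x => (hasFDerivAt_Q b x).fderiv

theorem Q_smooth (b : ι → ℝ) : ContDiff ℝ ∞ (Q b) := by
  unfold Q
  apply ContDiff.sum
  intro i _
  exact contDiff_const.mul ((contDiff_apply ℝ ℂ i).norm_sq ℝ)

theorem dQ_self (b : ι → ℝ) (v : ι → ℂ) : dQ b v v = 2 * Q b v := by
  rw [dQ_apply, Q, Finset.mul_sum]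
  apply Finset.sum_congr rfl
  intro i _
  rw [real_inner_self_eq_norm_sq]
  ring

theorem Q_I (b : ι → ℝ) (v : ι → ℂ) : Q b (Complex.I • v) = Q b v := by
  unfold Q
  simp

theorem Q_nonneg {b : ι → ℝ} (hb : ∀ i, 0 ≤ b i) (v : ι → ℂ) : 0 ≤ Q b v :=
  Finset.sum_nonneg fun i _ => mul_nonneg (hb i) (by positivity)

theorem le_Q {b : ι → ℝ} (hb : ∀ i, 0 ≤ b i) {i : ι} (hi : b i = 1) (v : ι → ℂ) :
    ‖v i‖ ^ 2 ≤ Q b v := by
  have := Finset.single_le_sum (f := fun i => b i * ‖v i‖ ^ 2)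
    (fun j _ => mul_nonneg (hb j) (by positivity)) (Finset.mem_univ i)
  simp only [hi, one_mul] at this
  exact this

theorem Q_pos {b : ι → ℝ} (hb : ∀ i, 0 ≤ b i) {i : ι} (hi : b i = 1) {v : ι → ℂ} (hv : v i ≠ 0) :
    0 < Q b v := by
  have := le_Q hb hi v
  have h2 : 0 < ‖v i‖ := norm_pos_iff.2 hv
  have : 0 < ‖v i‖ ^ 2 := by positivity
  linarith

/-- Components of the second derivative. -/
theorem fderiv2_comp {d : ℕ} {ρ : (ι → ℂ) → (Fin d → ℝ)} {z : ι → ℂ} (h : ContDiffAt ℝ 2 ρ z)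
    (v w : ι → ℂ) (j : Fin d) : fderiv ℝ (fderiv ℝ ρ) z v w j
      = fderiv ℝ (fderiv ℝ (fun x => ρ x j)) z v w := by
  set P : (Fin d → ℝ) →L[ℝ] ℝ := ContinuousLinearMap.proj j with hP
  have hev : ∀ᶠ x in 𝓝 z, DifferentiableAt ℝ ρ x := by
    have h1 := (h.of_le (m := 1) (by norm_num)).eventually (by simp)
    filter_upwards [h1] with x hx
    exact hx.differentiableAt (by norm_num)
  have h1 : fderiv ℝ (fun x => ρ x j) =ᶠ[𝓝 z] fun x => P.comp (fderiv ℝ ρ x) := by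
    filter_upwards [hev] with x hx
    exact (P.hasFDerivAt.comp x hx.hasFDerivAt).fderiv
  rw [h1.fderiv_eq]
  have h2 : DifferentiableAt ℝ (fderiv ℝ ρ) z :=
    (h.fderiv_right (m := 1) (by norm_num)).differentiableAt (by norm_num)
  have h3 : HasFDerivAt (fun x => P.comp (fderiv ℝ ρ x))
      ((ContinuousLinearMap.compL ℝ (ι → ℂ) (Fin d → ℝ) ℝ P).comp
        (fderiv ℝ (fderiv ℝ ρ) z)) z :=
    (ContinuousLinearMap.compL ℝ (ι → ℂ) (Fin d → ℝ) ℝ P).hasFDerivAt.comp z h2.hasFDerivAt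
  rw [h3.fderiv]
  rfl

theorem fderiv_comp {d : ℕ} {ρ : (ι → ℂ) → (Fin d → ℝ)} {z : ι → ℂ} (h : DifferentiableAt ℝ ρ z)
    (v : ι → ℂ) (j : Fin d) : fderiv ℝ ρ z v j = fderiv ℝ (fun x => ρ x j) z v := by
  set P : (Fin d → ℝ) →L[ℝ] ℝ := ContinuousLinearMap.proj j with hP
  have h1 : fderiv ℝ (fun x => ρ x j) z = P.comp (fderiv ℝ ρ z) :=
    (P.hasFDerivAt.comp z h.hasFDerivAt).fderiv
  rw [h1]
  rfl

omit [Fintype ι] in
/-- A complex linear functional has a nonzero zero supported on two given coordinates. -/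
theorem exists_zero [DecidableEq ι] (A : (ι → ℂ) →ₗ[ℂ] ℂ) {i j : ι} (hij : i ≠ j) :
    ∃ v : ι → ℂ, v ≠ 0 ∧ A v = 0 ∧ ∀ l, l ≠ i → l ≠ j → v l = 0 := by
  by_cases h : A (Pi.single i 1) = 0
  · refine ⟨Pi.single i 1, ?_, h, ?_⟩
    · intro h0
      have := congrFun h0 i
      simp at this
    · intro l hl _
      exact Pi.single_eq_of_ne hl _
  · refine ⟨A (Pi.single j 1) • Pi.single i 1 - A (Pi.single i 1) • Pi.single j 1, ?_, ?_, ?_⟩
    · intro h0
      have h1 := congrFun h0 j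
      simp only [Pi.sub_apply, Pi.smul_apply, smul_eq_mul, Pi.zero_apply, Pi.single_eq_same,
        Pi.single_eq_of_ne hij.symm] at h1
      simp at h1
      exact h h1
    · simp only [map_sub, map_smul, smul_eq_mul]
      ring
    · intro l hl hl'
      simp only [Pi.sub_apply, Pi.smul_apply, smul_eq_mul, Pi.single_eq_of_ne hl,
        Pi.single_eq_of_ne hl']
      ring

end Pool.Agent.H914R3.CR
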